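import Pool.Agent.Y249.DG.Quo

/-!
# The corrected criterion
-/

namespace Pool.Agent.Y249.DG

open Pool.Agent.Results.MP_ae31bd_an.Disproof

universe u

noncomputable section

/-- Every bounded derivation `D : A → A*` becomes inner after restriction of its values to the
commutator ideal `J`: there is `f` in `A*` with `D a = a • f - f • a` on `J` for all `a`. -/
def InnerOnComm (A : Type u) [NonUnitalNormedRing A] [NormedSpace ℂ A] : Prop :=
  ∀ D : A → A → ℂ, IsBoundedBilinearMap ℂ (fun p : A × A => D p.1 p.2) →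
    (∀ a b c : A, D (a * b) c = D b (c * a) + D a (b * c)) →
    ∃ f : A → ℂ, IsBoundedLinearMap ℂ f ∧
      ∀ a : A, ∀ c ∈ comIdeal A, D a c = f (c * a) - f (a * c)

variable {A : Type u} [NonUnitalNormedRing A] [NormedSpace ℂ A]
  [IsScalarTower ℂ A A] [SMulCommClass ℂ A A]

theorem weaklyAmenable_iff_comm : WeaklyAmenable A ↔ ComAm A ∧ InnerOnComm A := by
  constructor
  · intro h
    refine ⟨comAm_of_weaklyAmenable h, ?_⟩
    intro D hD hder
    obtain ⟨f, hf, hf'⟩ := h D hD hder
    exact ⟨f, hf, fun a c _ => hf' a c⟩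
  · rintro ⟨h1, h2⟩ D hD hder
    obtain ⟨f, hf, hf'⟩ := h2 D hD hder
    set DL : A →L[ℂ] A →L[ℂ] ℂ := IsBoundedBilinearMap.toContinuousLinearMap hD with hDL
    have hDL' : ∀ a c, D a c = DL a c := fun a c => rfl
    set fL : A →L[ℂ] ℂ := hf.toContinuousLinearMap with hfL
    have hfL' : ∀ a, f a = fL a := fun a => rfl
    let R1 : A →L[ℂ] A →L[ℂ] ℂ :=
      (ContinuousLinearMap.compL ℂ A A ℂ fL) ∘L (ContinuousLinearMap.mul ℂ A).flip
    let R2 : A →L[ℂ] A →L[ℂ] ℂ :=
      (ContinuousLinearMap.compL ℂ A A ℂ fL) ∘L (ContinuousLinearMap.mul ℂ A)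
    let EL : A →L[ℂ] A →L[ℂ] ℂ := DL - (R1 - R2)
    have hE : ∀ a c, EL a c = D a c - (f (c * a) - f (a * c)) := fun a c => rfl
    have hEJ : ∀ a, ∀ c ∈ comIdeal A, EL a c = 0 := by
      intro a c hc
      rw [hE, hf' a c hc, sub_self]
    have hz := h1 (fun a c => EL a c) EL.isBoundedBilinearMap
      (by
        intro a b c
        show EL (a * b) c = EL b (c * a) + EL a (b * c)
        rw [hE, hE, hE, hder, ← mul_assoc c a b, ← mul_assoc b c a, ← mul_assoc a b c]
        ring)
      (by
        intro a b c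
        show EL a (b * c) = EL a (c * b)
        rw [← sub_eq_zero, ← map_sub]
        exact hEJ a _ (comIdeal_comm b c))
      (by
        intro a b c d
        show EL a (b * c * d) = EL a (c * b * d)
        rw [← sub_eq_zero, ← map_sub, ← sub_mul]
        exact hEJ a _ (comIdeal_right (comIdeal_comm b c) d))
    refine ⟨f, hf, fun a c => ?_⟩
    have h3 : EL a c = 0 := hz a c
    rw [hE, sub_eq_zero] at h3
    exact h3

end

end Pool.Agent.Y249.DG
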