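import Pool.Agent.Y249.DG.Mat

/-!
# The disc algebra is semisimple and not weakly amenable
-/

namespace Pool.Agent.Y249.DG

open Pool.Agent.Results.MP_ae31bd_an.Disproof Polynomial

noncomputable section

/-- The closed unit disc. -/
abbrev Kd : Set ℂ := Metric.closedBall (0 : ℂ) 1

instance : CompactSpace Kd := isCompact_iff_compactSpace.1 (isCompact_closedBall 0 1)

/-- The disc algebra: the closure of the polynomials in `C(K)`. -/
abbrev DA : Subalgebra ℂ C(Kd, ℂ) := (polynomialFunctions Kd).topologicalClosure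

lemma circ_mem (θ : ℝ) : circleMap 0 1 θ ∈ Kd := by
  simp

/-- The circle. -/
def circ : C(ℝ, Kd) := ⟨fun θ => ⟨circleMap 0 1 θ, circ_mem θ⟩,
  (continuous_circleMap 0 1).subtype_mk _⟩

/-- The kernel of the Cauchy integral for the derivative at the origin. -/
def ck (θ : ℝ) : ℂ := (2 * Real.pi * Complex.I : ℂ)⁻¹ *
  (deriv (circleMap 0 1) θ * ((circleMap 0 1 θ - 0) ^ 2)⁻¹)

lemma ck_cont : Continuous ck := by
  unfold ck
  have h1 : Continuous fun θ : ℝ => deriv (circleMap 0 1) θ := by
    simp only [deriv_circleMap]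
    exact (continuous_circleMap 0 1).mul continuous_const
  have h2 : Continuous fun θ : ℝ => ((circleMap 0 1 θ - 0) ^ 2)⁻¹ := by
    apply Continuous.inv₀
    · exact ((continuous_circleMap 0 1).sub continuous_const).pow 2
    · intro θ
      rw [sub_zero]
      exact pow_ne_zero 2 (circleMap_ne_center one_ne_zero)
  exact continuous_const.mul (h1.mul h2)

/-- The functional `f ↦ f'(0)`. -/
def lam : C(Kd, ℂ) →L[ℂ] ℂ :=
  LinearMap.mkContinuousOfExistsBound
    { toFun := fun f => ∫ θ in (0 : ℝ)..(2 * Real.pi), ck θ * f (circ θ)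
      map_add' := by
        intro f g
        rw [← intervalIntegral.integral_add]
        · congr 1
          ext θ
          show ck θ * (f (circ θ) + g (circ θ)) = _
          ring
        · exact (ck_cont.mul (f.continuous.comp circ.continuous)).intervalIntegrable _ _
        · exact (ck_cont.mul (g.continuous.comp circ.continuous)).intervalIntegrable _ _
      map_smul' := by
        intro r f
        rw [RingHom.id_apply, smul_eq_mul, ← intervalIntegral.integral_const_mul]
        congr 1
        ext θ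
        show ck θ * (r * f (circ θ)) = _
        ring }
    (by
      obtain ⟨M, hM⟩ := (isCompact_Icc (a := (0 : ℝ)) (b := 2 * Real.pi)).exists_bound_of_continuousOn
        ck_cont.continuousOn
      refine ⟨M * |2 * Real.pi - 0|, fun f => ?_⟩
      show ‖∫ θ in (0 : ℝ)..(2 * Real.pi), ck θ * f (circ θ)‖ ≤ _
      have h := intervalIntegral.norm_integral_le_of_norm_le_const (a := (0 : ℝ))
        (b := 2 * Real.pi) (C := M * ‖f‖) (f := fun θ => ck θ * f (circ θ)) (by
          intro θ hθ
          rw [Set.uIoc_of_le (by positivity)] at hθ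
          rw [norm_mul]
          have h1 := hM θ ⟨hθ.1.le, hθ.2⟩
          have h2 := f.norm_coe_le_norm (circ θ)
          have h3 : 0 ≤ ‖ck θ‖ := norm_nonneg _
          have h4 : 0 ≤ M := h3.trans h1
          gcongr)
      calc _ ≤ _ := h
        _ = _ := by ring)

lemma lam_poly (p : ℂ[X]) : lam (p.toContinuousMapOn Kd) = (derivative p).eval 0 := by
  have h1 := Complex.two_pi_I_inv_smul_circleIntegral_sub_sq_inv_smul_of_differentiable
    (U := Set.univ) isOpen_univ (c := 0) (w₀ := 0) (R := 1) (f := fun z => p.eval z)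
    (Set.subset_univ _) (p.differentiable.differentiableOn) (by simp)
  rw [Polynomial.deriv] at h1
  rw [← h1, circleIntegral, smul_eq_mul, ← intervalIntegral.integral_const_mul]
  show (∫ θ in (0 : ℝ)..(2 * Real.pi), ck θ * p.eval (circleMap 0 1 θ)) = _
  congr 1
  ext θ
  rw [ck, smul_eq_mul, smul_eq_mul]
  ring

/-- The origin. -/
def org : Kd := ⟨0, by simp⟩

lemma lam_mul {f g : C(Kd, ℂ)} (hf : f ∈ DA) (hg : g ∈ DA) :
    lam (f * g) = lam f * g org + f org * lam g := by
  have hpp : ∀ p q : ℂ[X], lam (p.toContinuousMapOn Kd * q.toContinuousMapOn Kd) =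
      lam (p.toContinuousMapOn Kd) * (q.toContinuousMapOn Kd) org +
      (p.toContinuousMapOn Kd) org * lam (q.toContinuousMapOn Kd) := by
    intro p q
    have e : p.toContinuousMapOn Kd * q.toContinuousMapOn Kd = (p * q).toContinuousMapOn Kd := by
      ext z
      show p.eval _ * q.eval _ = (p * q).eval _
      rw [eval_mul]
    rw [e, lam_poly, lam_poly, lam_poly, derivative_mul, eval_add, eval_mul, eval_mul]
    rfl
  have ev : Continuous fun f : C(Kd, ℂ) => f org := continuous_eval_const org
  have hP : ∀ f ∈ (polynomialFunctions Kd : Set C(Kd, ℂ)), ∃ p : ℂ[X], p.toContinuousMapOn Kd = f := by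
    rintro f ⟨p, -, hp⟩
    exact ⟨p, hp⟩
  have step1 : ∀ f ∈ closure (polynomialFunctions Kd : Set C(Kd, ℂ)), ∀ q : ℂ[X],
      lam (f * q.toContinuousMapOn Kd) = lam f * (q.toContinuousMapOn Kd) org +
        f org * lam (q.toContinuousMapOn Kd) := by
    intro f hf q
    have hcl : IsClosed {f : C(Kd, ℂ) | lam (f * q.toContinuousMapOn Kd) =
        lam f * (q.toContinuousMapOn Kd) org + f org * lam (q.toContinuousMapOn Kd)} := by
      apply isClosed_eq
      · exact lam.continuous.comp (continuous_id.mul continuous_const)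
      · exact (lam.continuous.mul continuous_const).add (ev.mul continuous_const)
    apply closure_minimal _ hcl hf
    intro f hf
    obtain ⟨p, rfl⟩ := hP f hf
    exact hpp p q
  have hcl : IsClosed {g : C(Kd, ℂ) | lam (f * g) = lam f * g org + f org * lam g} := by
    apply isClosed_eq
    · exact lam.continuous.comp (continuous_const.mul continuous_id)
    · exact (continuous_const.mul ev).add (continuous_const.mul lam.continuous)
  apply closure_minimal _ hcl hg
  intro g hg
  obtain ⟨q, rfl⟩ := hP g hg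
  exact step1 f hf q

/-- The disc algebra is semisimple. -/
theorem jac_disc : (⊥ : Ideal DA).jacobson = ⊥ := by
  rw [eq_bot_iff]
  intro f hf
  have hz : ∀ z : Kd, (f : C(Kd, ℂ)) z = 0 := by
    intro z
    let φ : DA →+* ℂ :=
      { toFun := fun f => (f : C(Kd, ℂ)) z
        map_one' := rfl
        map_mul' := fun _ _ => rfl
        map_zero' := rfl
        map_add' := fun _ _ => rfl }
    have hs : Function.Surjective φ := fun c => ⟨algebraMap ℂ DA c, rfl⟩
    have hm : (RingHom.ker φ).IsMaximal := RingHom.ker_isMaximal_of_surjective φ hs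
    have h2 : f ∈ RingHom.ker φ := by
      have h3 : f ∈ sInf {J : Ideal DA | ⊥ ≤ J ∧ J.IsMaximal} := hf
      exact (Ideal.mem_sInf.1 h3) ⟨bot_le, hm⟩
    exact h2
  have h0 : f = 0 := by
    apply Subtype.ext
    ext z
    exact hz z
  rw [h0]
  exact Submodule.zero_mem _

/-- Matrix algebras over semisimple algebras are semisimple. -/
theorem jac_matrix {R : Type} [Ring R] {n : ℕ} (h : (⊥ : Ideal R).jacobson = ⊥) :
    (⊥ : Ideal (Matrix (Fin n) (Fin n) R)).jacobson = ⊥ := by
  have h1 := TwoSidedIdeal.matrix_jacobson_bot (R := R) (n := Fin n)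
  have h2 : (⊥ : TwoSidedIdeal R).jacobson = ⊥ := by
    apply TwoSidedIdeal.ext
    intro x
    rw [← TwoSidedIdeal.mem_asIdeal, TwoSidedIdeal.asIdeal_jacobson, TwoSidedIdeal.bot_asIdeal, h,
      ← TwoSidedIdeal.bot_asIdeal, TwoSidedIdeal.mem_asIdeal]
  rw [h2] at h1
  have h3 : ((⊥ : TwoSidedIdeal (Matrix (Fin n) (Fin n) R)).jacobson).asIdeal = ⊥ := by
    rw [← h1]
    rw [eq_bot_iff]
    intro x hx
    rw [TwoSidedIdeal.mem_asIdeal, TwoSidedIdeal.mem_matrix] at hx
    rw [Ideal.mem_bot]
    ext i j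
    exact (TwoSidedIdeal.mem_bot R).1 (hx i j)
  rw [TwoSidedIdeal.asIdeal_jacobson, TwoSidedIdeal.bot_asIdeal] at h3
  exact h3

/-- The disc algebra is not weakly amenable. -/
theorem not_wa_disc : ¬ WeaklyAmenable DA := by
  intro h
  obtain ⟨F, -, hF⟩ := h (fun a c => lam (a : C(Kd, ℂ)) * (c : C(Kd, ℂ)) org)
    (((ContinuousLinearMap.mul ℂ ℂ).bilinearComp
      (lam ∘L (Submodule.subtypeL (Subalgebra.toSubmodule DA)))
      ((ContinuousMap.evalCLM ℂ org) ∘L
        (Submodule.subtypeL (Subalgebra.toSubmodule DA)))).isBoundedBilinearMap) (by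
      intro a b c
      show lam ((a : C(Kd, ℂ)) * b) * (c : C(Kd, ℂ)) org =
        lam (b : C(Kd, ℂ)) * ((c : C(Kd, ℂ)) org * (a : C(Kd, ℂ)) org) +
        lam (a : C(Kd, ℂ)) * ((b : C(Kd, ℂ)) org * (c : C(Kd, ℂ)) org)
      rw [lam_mul a.2 b.2]
      ring)
  have hX : (Polynomial.X : ℂ[X]).toContinuousMapOn Kd ∈ DA :=
    Subalgebra.le_topologicalClosure _ ⟨Polynomial.X, trivial, rfl⟩
  have h1 := hF ⟨_, hX⟩ 1
  rw [mul_one, one_mul, sub_self] at h1
  have h2 : lam ((Polynomial.X : ℂ[X]).toContinuousMapOn Kd) * 1 = 0 := h1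
  rw [lam_poly] at h2
  simp at h2

end

end Pool.Agent.Y249.DG
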