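import Pool.Agent.Results.MP_ae31bd_an.Disproof

/-!
# The enveloping algebra of an arbitrary Banach algebra exists

The projective tensor product of a Banach space `X` with itself is the closed linear span of the
functionals `β ↦ β a b` in the dual of the space of bounded bilinear forms.
-/

namespace Pool.Agent.Y249.DG

open Pool.Agent.Results.MP_ae31bd_an.Disproof
open scoped TensorProduct

universe u

noncomputable section

section Tensor

variable (X : Type u) [NormedAddCommGroup X] [NormedSpace ℂ X]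

/-- Bounded bilinear forms. -/
def BF : Type u := X →L[ℂ] X →L[ℂ] ℂ

instance : NormedAddCommGroup (BF X) := inferInstanceAs (NormedAddCommGroup (X →L[ℂ] X →L[ℂ] ℂ))

instance : NormedSpace ℂ (BF X) := inferInstanceAs (NormedSpace ℂ (X →L[ℂ] X →L[ℂ] ℂ))

/-- A bounded bilinear form as a continuous bilinear map, and conversely. -/
def BF.un (β : BF X) : X →L[ℂ] X →L[ℂ] ℂ := β

/-- A continuous bilinear map as a bilinear form. -/
def BF.mk (β : X →L[ℂ] X →L[ℂ] ℂ) : BF X := β

/-- The dual of the space of bilinear forms. -/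
def DD : Type u := BF X →L[ℂ] ℂ

instance : NormedAddCommGroup (DD X) := inferInstanceAs (NormedAddCommGroup (BF X →L[ℂ] ℂ))

instance : NormedSpace ℂ (DD X) := inferInstanceAs (NormedSpace ℂ (BF X →L[ℂ] ℂ))

instance : CompleteSpace (DD X) := inferInstanceAs (CompleteSpace (BF X →L[ℂ] ℂ))

/-- Evaluation of an element of the dual. -/
def DD.at (w : DD X) (β : BF X) : ℂ := (show BF X →L[ℂ] ℂ from w) β

lemma DD.at_le (w : DD X) (β : BF X) : ‖DD.at X w β‖ ≤ ‖w‖ * ‖β‖ :=
  ContinuousLinearMap.le_opNorm (show BF X →L[ℂ] ℂ from w) β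

lemma DD.at_add (w w' : DD X) (β : BF X) : DD.at X (w + w') β = DD.at X w β + DD.at X w' β := rfl

lemma DD.at_zero (β : BF X) : DD.at X 0 β = 0 := rfl

/-- `a ⊗ b` as a functional on bilinear forms. -/
def ev (a b : X) : DD X :=
  (LinearMap.mkContinuous
    { toFun := fun β => BF.un X β a b
      map_add' := fun _ _ => rfl
      map_smul' := fun _ _ => rfl } (‖a‖ * ‖b‖)
    (fun β => by
      have := (BF.un X β).le_opNorm₂ a b
      calc ‖BF.un X β a b‖ ≤ ‖BF.un X β‖ * ‖a‖ * ‖b‖ := this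
        _ = ‖a‖ * ‖b‖ * ‖BF.un X β‖ := by ring) : BF X →L[ℂ] ℂ)

lemma ev_at (a b : X) (β : BF X) : DD.at X (ev X a b) β = BF.un X β a b := rfl

lemma ev_norm (a b : X) : ‖ev X a b‖ ≤ ‖a‖ * ‖b‖ :=
  LinearMap.mkContinuous_norm_le _ (by positivity) _

lemma DD.ext {w w' : DD X} (h : ∀ β, DD.at X w β = DD.at X w' β) : w = w' :=
  ContinuousLinearMap.ext (M₁ := BF X) h

/-- The algebraic tensor product mapped to the functionals. -/
def T : X ⊗[ℂ] X →ₗ[ℂ] DD X :=
  TensorProduct.lift (LinearMap.mk₂ ℂ (fun a b => ev X a b)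
    (fun a b c => DD.ext X fun β => by
      rw [DD.at_add, ev_at, ev_at, ev_at, map_add]; rfl)
    (fun r a b => DD.ext X fun β => by
      show BF.un X β (r • a) b = r • BF.un X β a b
      rw [map_smul]; rfl)
    (fun a b c => DD.ext X fun β => by
      rw [DD.at_add, ev_at, ev_at, ev_at, map_add])
    (fun r a b => DD.ext X fun β => by
      show BF.un X β a (r • b) = r • BF.un X β a b
      rw [map_smul]))

lemma T_tmul (a b : X) : T X (a ⊗ₜ b) = ev X a b := rfl

/-- The projective tensor product. -/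
def PT : Type u := (LinearMap.range (T X)).topologicalClosure

instance : NormedAddCommGroup (PT X) :=
  inferInstanceAs (NormedAddCommGroup (LinearMap.range (T X)).topologicalClosure)

instance : NormedSpace ℂ (PT X) :=
  inferInstanceAs (NormedSpace ℂ (LinearMap.range (T X)).topologicalClosure)

instance : CompleteSpace (PT X) :=
  inferInstanceAs (CompleteSpace (LinearMap.range (T X)).topologicalClosure)

/-- The algebraic tensor product is dense. -/
def inc : X ⊗[ℂ] X →ₗ[ℂ] PT X :=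
  LinearMap.codRestrict (LinearMap.range (T X)).topologicalClosure (T X)
    (fun w => Submodule.le_topologicalClosure _ ⟨w, rfl⟩)

lemma inc_norm (w : X ⊗[ℂ] X) : ‖inc X w‖ = ‖T X w‖ := rfl

lemma inc_dense : DenseRange (inc X) := by
  have h : DenseRange (fun w => (⟨T X w, Submodule.le_topologicalClosure _ ⟨w, rfl⟩⟩ :
      (LinearMap.range (T X)).topologicalClosure)) := by
    intro x
    rw [mem_closure_iff_seq_limit]
    have hx : (x : DD X) ∈ closure ((LinearMap.range (T X)) : Set (DD X)) := x.2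
    obtain ⟨s, hs, hlim⟩ := mem_closure_iff_seq_limit.1 hx
    choose w hw using hs
    refine ⟨fun n => _, fun n => ⟨w n, rfl⟩, ?_⟩
    rw [tendsto_subtype_rng]
    have : (fun n => ((⟨T X (w n), Submodule.le_topologicalClosure _ ⟨w n, rfl⟩⟩ :
        (LinearMap.range (T X)).topologicalClosure) : DD X)) = s := by
      funext n
      exact hw n
    rw [this]
    exact hlim
  exact h

/-- `a ⊗ b`. -/
def tm : X →L[ℂ] X →L[ℂ] PT X :=
  LinearMap.mkContinuous₂
    (LinearMap.mk₂ ℂ (fun a b => inc X (a ⊗ₜ b))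
      (fun a b c => by rw [TensorProduct.add_tmul, map_add])
      (fun r a b => by rw [← TensorProduct.smul_tmul', map_smul])
      (fun a b c => by rw [TensorProduct.tmul_add, map_add])
      (fun r a b => by rw [TensorProduct.tmul_smul, map_smul])) 1
    (by
      intro a b
      rw [one_mul]
      exact ev_norm X a b)

lemma tm_apply (a b : X) : tm X a b = inc X (a ⊗ₜ b) := rfl

variable {X} {Z : Type*} [NormedAddCommGroup Z] [NormedSpace ℂ Z]

/-- The algebraic lift. -/
def al (β : X →L[ℂ] X →L[ℂ] Z) : X ⊗[ℂ] X →ₗ[ℂ] Z :=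
  TensorProduct.lift (LinearMap.mk₂ ℂ (fun a b => β a b) (by simp) (by simp) (by simp) (by simp))

lemma al_tmul (β : X →L[ℂ] X →L[ℂ] Z) (a b : X) : al β (a ⊗ₜ b) = β a b := rfl

lemma al_bound (β : X →L[ℂ] X →L[ℂ] Z) (w : X ⊗[ℂ] X) : ‖al β w‖ ≤ ‖β‖ * ‖inc X w‖ := by
  apply NormedSpace.norm_le_dual_bound ℂ _ (by positivity)
  intro f
  set γ : BF X := BF.mk X ((ContinuousLinearMap.compL ℂ X Z ℂ f) ∘L β) with hγ
  have key : ∀ w : X ⊗[ℂ] X, f (al β w) = DD.at X (T X w) γ := by
    intro w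
    induction w using TensorProduct.induction_on with
    | zero => rw [map_zero, map_zero, map_zero, DD.at_zero]
    | tmul a b => rw [al_tmul, T_tmul, ev_at]; rfl
    | add a b ha hb => rw [map_add, map_add, map_add, ha, hb, DD.at_add]
  rw [key]
  have h1 := DD.at_le X (T X w) γ
  have h2 : ‖(ContinuousLinearMap.compL ℂ X Z ℂ f) ∘L β‖ ≤ ‖f‖ * ‖β‖ := by
    apply ContinuousLinearMap.opNorm_le_bound _ (by positivity)
    intro a
    have h3 : ((ContinuousLinearMap.compL ℂ X Z ℂ f) ∘L β) a = f ∘L (β a) := rfl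
    rw [h3]
    calc ‖f ∘L (β a)‖ ≤ ‖f‖ * ‖β a‖ := ContinuousLinearMap.opNorm_comp_le _ _
      _ ≤ ‖f‖ * (‖β‖ * ‖a‖) := by gcongr; exact β.le_opNorm a
      _ = ‖f‖ * ‖β‖ * ‖a‖ := by ring
  have h5 : ‖γ‖ ≤ ‖f‖ * ‖β‖ := h2
  rw [inc_norm]
  calc ‖DD.at X (T X w) γ‖
      ≤ ‖T X w‖ * ‖γ‖ := h1
    _ ≤ ‖T X w‖ * (‖f‖ * ‖β‖) := by gcongr
    _ = ‖β‖ * ‖T X w‖ * ‖f‖ := by ring

variable [CompleteSpace Z]

/-- The universal property: the lift of a bounded bilinear map. -/
def up (β : X →L[ℂ] X →L[ℂ] Z) : PT X →L[ℂ] Z := (al β).extendOfNorm (inc X)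

lemma up_inc (β : X →L[ℂ] X →L[ℂ] Z) (w : X ⊗[ℂ] X) : up β (inc X w) = al β w :=
  LinearMap.extendOfNorm_eq (inc_dense X) ⟨‖β‖, al_bound β⟩ w

lemma up_tm (β : X →L[ℂ] X →L[ℂ] Z) (a b : X) : up β (tm X a b) = β a b := by
  rw [tm_apply, up_inc, al_tmul]

lemma up_norm (β : X →L[ℂ] X →L[ℂ] Z) : ‖up β‖ ≤ ‖β‖ :=
  ContinuousLinearMap.opNorm_le_bound _ β.opNorm_nonneg (fun x =>
    LinearMap.norm_extendOfNorm_apply_le (inc_dense X) ‖β‖ (al_bound β) x)

omit [CompleteSpace Z] in
lemma ext_tm {φ ψ : PT X →L[ℂ] Z} (h : ∀ a b, φ (tm X a b) = ψ (tm X a b)) : φ = ψ := by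
  have h1 : ∀ w : X ⊗[ℂ] X, φ (inc X w) = ψ (inc X w) := by
    intro w
    induction w using TensorProduct.induction_on with
    | zero => simp
    | tmul a b => exact h a b
    | add a b ha hb => rw [map_add, map_add, map_add, ha, hb]
  have h2 : (φ : PT X → Z) = ψ := by
    apply (inc_dense X).equalizer φ.continuous ψ.continuous
    funext w
    exact h1 w
  exact DFunLike.coe_injective h2

lemma up_add (β γ : X →L[ℂ] X →L[ℂ] Z) : up (β + γ) = up β + up γ := by
  apply ext_tm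
  intro a b
  have h1 : (up β + up γ) (tm X a b) = up β (tm X a b) + up γ (tm X a b) := rfl
  rw [up_tm, h1, up_tm, up_tm]
  rfl

lemma up_smul (r : ℂ) (β : X →L[ℂ] X →L[ℂ] Z) : up (r • β) = r • up β := by
  apply ext_tm
  intro a b
  have h1 : (r • up β) (tm X a b) = r • up β (tm X a b) := rfl
  rw [up_tm, h1, up_tm]
  rfl

end Tensor

section Algebra

variable (A : Type u) [NonUnitalNormedRing A] [NormedSpace ℂ A]
  [IsScalarTower ℂ A A] [SMulCommClass ℂ A A]

/-- The bilinear map `(c, d) ↦ a c ⊗ d b`. -/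
def mb0 (a b : AP A) : AP A →L[ℂ] AP A →L[ℂ] PT (AP A) :=
  (tm (AP A)).bilinearComp (ContinuousLinearMap.mul ℂ (AP A) a)
    ((ContinuousLinearMap.mul ℂ (AP A)).flip b)

lemma mb0_apply (a b c d : AP A) : mb0 A a b c d = tm (AP A) (a * c) (d * b) := rfl

lemma mb0_norm (a b : AP A) : ‖mb0 A a b‖ ≤ ‖tm (AP A)‖ * ‖a‖ * ‖b‖ := by
  apply ContinuousLinearMap.opNorm_le_bound₂ _ (by positivity)
  intro x y
  have h1 := (tm (AP A)).le_opNorm₂ (a * x) (y * b)
  have h2 : ‖a * x‖ ≤ ‖a‖ * ‖x‖ := norm_mul_le _ _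
  have h3 : ‖y * b‖ ≤ ‖y‖ * ‖b‖ := norm_mul_le _ _
  have h4 : ‖tm (AP A)‖ * ‖a * x‖ * ‖y * b‖ ≤
      ‖tm (AP A)‖ * (‖a‖ * ‖x‖) * (‖y‖ * ‖b‖) := by gcongr
  rw [mb0_apply]
  calc _ ≤ _ := h1
    _ ≤ _ := h4
    _ = _ := by ring

/-- `(a, b) ↦ ((c, d) ↦ a c ⊗ d b)`, lifted in `(c, d)`. -/
def mb : AP A →L[ℂ] AP A →L[ℂ] (PT (AP A) →L[ℂ] PT (AP A)) :=
  LinearMap.mkContinuous₂
    (LinearMap.mk₂ ℂ (fun a b => up (mb0 A a b))
      (fun a b c => by
        rw [← up_add]; congr 1; ext x y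
        show tm (AP A) ((a + b) * x) (y * c) = tm (AP A) (a * x) (y * c) + tm (AP A) (b * x) (y * c)
        rw [add_mul, map_add]; rfl)
      (fun r a b => by
        rw [← up_smul]; congr 1; ext x y
        show tm (AP A) ((r • a) * x) (y * b) = r • tm (AP A) (a * x) (y * b)
        rw [smul_mul_assoc, map_smul]; rfl)
      (fun a b c => by
        rw [← up_add]; congr 1; ext x y
        show tm (AP A) (a * x) (y * (b + c)) = tm (AP A) (a * x) (y * b) + tm (AP A) (a * x) (y * c)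
        rw [mul_add, map_add])
      (fun r a b => by
        rw [← up_smul]; congr 1; ext x y
        show tm (AP A) (a * x) (y * (r • b)) = r • tm (AP A) (a * x) (y * b)
        rw [mul_smul_comm, map_smul])) ‖tm (AP A)‖
    (by
      intro a b
      exact (up_norm (mb0 A a b)).trans (mb0_norm A a b))

lemma mb_apply (a b c d : AP A) :
    mb A a b (tm (AP A) c d) = tm (AP A) (a * c) (d * b) := up_tm (mb0 A a b) c d

/-- The multiplication. -/
def mulE : PT (AP A) →L[ℂ] PT (AP A) →L[ℂ] PT (AP A) := up (mb A)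

lemma mulE_tm (a b : AP A) : mulE A (tm (AP A) a b) = mb A a b := up_tm (mb A) a b

/-- The enveloping algebra. -/
def envL [CompleteSpace A] : EnvL A where
  E := PT (AP A)
  tmul := tm (AP A)
  universal := by
    intro Z _ _ _ β
    refine ⟨up β, fun a b => up_tm β a b, ?_⟩
    intro ψ hψ
    apply ext_tm
    intro a b
    rw [hψ, up_tm]
  mul := mulE A
  mul_tmul := by
    intro a b c d
    rw [mulE_tm, mb_apply]
  proj := up (ContinuousLinearMap.mul ℂ (AP A))
  proj_tmul := by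
    intro a b
    rw [up_tm]
    rfl

/-- The enveloping algebra of a Banach algebra exists. -/
theorem nonempty_env [CompleteSpace A] : Nonempty (Env A) := ⟨(envL A).toEnv⟩

end Algebra

end

end Pool.Agent.Y249.DG
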