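import Pool.Agent.Y249.DG.Wa

/-!
# Matrix algebras
-/

namespace Pool.Agent.Y249.DG

open Pool.Agent.Results.MP_ae31bd_an.Disproof

universe u

noncomputable section

section Mat

variable {B : Type u} [NormedRing B] [NormedAlgebra ℂ B] {n : ℕ}

attribute [local instance] Matrix.linftyOpNormedRing Matrix.linftyOpNormedAlgebra

/-- If the identity is a sum of elements `u (b c - c b) v` then the commutator condition holds. -/
theorem comAm_of_commutators {A : Type u} [NormedRing A] [NormedAlgebra ℂ A] {m : ℕ}
    (u b c v : Fin m → A) (h : ∑ k, u k * (b k * c k - c k * b k) * v k = 1) : ComAm A := by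
  intro D hD h1 h2 h3 a x
  set DL : A →L[ℂ] A →L[ℂ] ℂ := IsBoundedBilinearMap.toContinuousLinearMap hD with hDL
  have hDL' : ∀ a c, D a c = DL a c := fun a c => rfl
  have e1 : D a x = DL a (∑ k, x * (u k * (b k * c k - c k * b k) * v k)) := by
    rw [← Finset.mul_sum, h, mul_one, hDL']
  rw [e1, map_sum]
  apply Finset.sum_eq_zero
  intro k _
  have e2 : x * (u k * (b k * c k - c k * b k) * v k) =
      (x * u k) * ((b k * c k - c k * b k) * v k) := by
    noncomm_ring
  rw [e2, ← hDL', h2]
  have e3 : (b k * c k - c k * b k) * v k * (x * u k) =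
      b k * c k * (v k * (x * u k)) - c k * b k * (v k * (x * u k)) := by
    noncomm_ring
  rw [e3, hDL', map_sub, ← hDL', ← hDL', h3, sub_self]

/-- Matrix algebras satisfy the commutator condition. -/
theorem comAm_matrix (hn : 2 ≤ n) : ComAm (Matrix (Fin n) (Fin n) B) := by
  have hnt : Nontrivial (Fin n) := Fin.nontrivial_iff_two_le.2 hn
  have hex : ∀ i : Fin n, ∃ j, j ≠ i := fun i => exists_ne i
  choose j hj using hex
  apply comAm_of_commutators (fun i => Matrix.single i i 1) (fun i => Matrix.single i (j i) 1)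
    (fun i => Matrix.single (j i) i 1) (fun _ => 1)
  refine Eq.trans ?_ Matrix.sum_single_one
  apply Finset.sum_congr rfl
  intro i _
  rw [mul_one, Matrix.single_mul_single_same, Matrix.single_mul_single_same, mul_one, mul_sub,
    Matrix.single_mul_single_same, Matrix.single_mul_single_of_ne _ _ _ _ (hj i).symm, mul_one,
    sub_zero]

lemma entry_le (i j : Fin n) (M : Matrix (Fin n) (Fin n) B) : ‖M i j‖ ≤ ‖M‖ := by
  have h : ‖M i j‖₊ ≤ ‖M‖₊ := by
    rw [Matrix.linfty_opNNNorm_def]
    calc ‖M i j‖₊ ≤ ∑ j', ‖M i j'‖₊ :=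
          Finset.single_le_sum (f := fun j' => ‖M i j'‖₊) (fun _ _ => by simp)
            (Finset.mem_univ j)
      _ ≤ _ := Finset.le_sup (f := fun i => ∑ j', ‖M i j'‖₊) (Finset.mem_univ i)
  exact h

lemma single_le (i j : Fin n) (b : B) :
    ‖(Matrix.single i j b : Matrix (Fin n) (Fin n) B)‖ ≤ ‖b‖ := by
  have h : ‖(Matrix.single i j b : Matrix (Fin n) (Fin n) B)‖₊ ≤ ‖b‖₊ := by
    rw [Matrix.linfty_opNNNorm_def]
    apply Finset.sup_le
    intro i' _
    rw [Finset.sum_eq_single j]
    · by_cases hi : i = i'
      · subst hi; simp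
      · rw [Matrix.single_apply_of_row_ne hi]; simp
    · intro j' _ hj'
      rw [Matrix.single_apply_of_col_ne _ _ hj'.symm]; simp
    · intro hj; exact absurd (Finset.mem_univ j) hj
  exact h

/-- Entries. -/
def en (i j : Fin n) : Matrix (Fin n) (Fin n) B →L[ℂ] B :=
  LinearMap.mkContinuous
    { toFun := fun M => M i j
      map_add' := fun _ _ => rfl
      map_smul' := fun _ _ => rfl } 1 (fun M => by rw [one_mul]; exact entry_le i j M)

lemma en_apply (i j : Fin n) (M : Matrix (Fin n) (Fin n) B) : en i j M = M i j := rfl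

/-- Single entry matrices. -/
def sg (i j : Fin n) : B →L[ℂ] Matrix (Fin n) (Fin n) B :=
  LinearMap.mkContinuous
    { toFun := fun b => Matrix.single i j b
      map_add' := fun a b => Matrix.single_add i j a b
      map_smul' := fun r b => (Matrix.smul_single r i j b).symm } 1
    (fun b => by rw [one_mul]; exact single_le i j b)

lemma sg_apply (i j : Fin n) (b : B) : sg i j b = Matrix.single i j b := rfl

/-- The trace of a derivation. -/
theorem weaklyAmenable_of_matrix (hn : 0 < n) (h : WeaklyAmenable (Matrix (Fin n) (Fin n) B)) :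
    WeaklyAmenable B := by
  intro D hD hder
  set DL : B →L[ℂ] B →L[ℂ] ℂ := IsBoundedBilinearMap.toContinuousLinearMap hD with hDL
  have hDL' : ∀ a c, D a c = DL a c := fun a c => rfl
  set T : Matrix (Fin n) (Fin n) B →L[ℂ] Matrix (Fin n) (Fin n) B →L[ℂ] ℂ :=
    ∑ i, ∑ j, DL.bilinearComp (en i j) (en j i) with hT
  have hT' : ∀ x y, T x y = ∑ i, ∑ j, D (x i j) (y j i) := by
    intro x y
    simp only [hT, sum_apply]
    rfl
  obtain ⟨f, hf, hf'⟩ := h (fun x y => T x y) T.isBoundedBilinearMap (by
    intro x y z
    show T (x * y) z = T y (z * x) + T x (y * z)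
    rw [hT', hT', hT']
    have e1 : ∀ i j, D ((x * y) i j) (z j i) =
        ∑ k, (D (y k j) (z j i * x i k) + D (x i k) (y k j * z j i)) := by
      intro i j
      rw [Matrix.mul_apply, hDL', map_sum, sum_apply]
      apply Finset.sum_congr rfl
      intro k _
      rw [← hDL', hder]
    have e2 : ∀ k j, D (y k j) ((z * x) j k) = ∑ i, D (y k j) (z j i * x i k) := by
      intro k j
      rw [Matrix.mul_apply, hDL', map_sum]
      rfl
    have e3 : ∀ i k, D (x i k) ((y * z) k i) = ∑ j, D (x i k) (y k j * z j i) := by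
      intro i k
      rw [Matrix.mul_apply, hDL', map_sum]
      rfl
    simp only [e1, e2, e3, Finset.sum_add_distrib]
    congr 1
    · -- i j k -> k j i
      calc ∑ i, ∑ j, ∑ k, D (y k j) (z j i * x i k)
          = ∑ i, ∑ k, ∑ j, D (y k j) (z j i * x i k) := by
            apply Finset.sum_congr rfl; intro i _; exact Finset.sum_comm
        _ = ∑ k, ∑ i, ∑ j, D (y k j) (z j i * x i k) := Finset.sum_comm
        _ = ∑ k, ∑ j, ∑ i, D (y k j) (z j i * x i k) := by
            apply Finset.sum_congr rfl; intro i _; exact Finset.sum_comm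
    · apply Finset.sum_congr rfl; intro i _; exact Finset.sum_comm)
  set o : Fin n := ⟨0, hn⟩
  refine ⟨fun b => f (sg o o b), ?_, ?_⟩
  · exact (hf.toContinuousLinearMap ∘L (sg o o)).isBoundedLinearMap
  · intro a c
    have h1 : T (sg o o a) (sg o o c) = f (sg o o c * sg o o a) - f (sg o o a * sg o o c) :=
      hf' _ _
    rw [sg_apply, sg_apply, Matrix.single_mul_single_same, Matrix.single_mul_single_same] at h1
    show D a c = f (Matrix.single o o (c * a)) - f (Matrix.single o o (a * c))
    rw [← h1, hT']
    rw [Finset.sum_eq_single o, Finset.sum_eq_single o]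
    · rw [Matrix.single_apply_same, Matrix.single_apply_same]
    · intro j _ hj
      rw [Matrix.single_apply_of_col_ne _ _ hj.symm, hDL', map_zero]; rfl
    · intro h0; exact absurd (Finset.mem_univ o) h0
    · intro i _ hi
      apply Finset.sum_eq_zero
      intro j _
      rw [Matrix.single_apply_of_row_ne hi.symm, hDL', map_zero]; rfl
    · intro h0; exact absurd (Finset.mem_univ o) h0

/-- Weak amenability passes to matrix algebras. -/
theorem weaklyAmenable_matrix (hn : 0 < n) (h : WeaklyAmenable B) :
    WeaklyAmenable (Matrix (Fin n) (Fin n) B) := by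
  intro D hD hder
  set DL : Matrix (Fin n) (Fin n) B →L[ℂ] Matrix (Fin n) (Fin n) B →L[ℂ] ℂ :=
    IsBoundedBilinearMap.toContinuousLinearMap hD with hDL
  have hDL' : ∀ a c, D a c = DL a c := fun a c => rfl
  set o : Fin n := ⟨0, hn⟩ with ho
  -- the inner part
  set X : Matrix (Fin n) (Fin n) B →L[ℂ] ℂ :=
    ∑ k, (DL (Matrix.single o k 1)) ∘L
      ((ContinuousLinearMap.mul ℂ (Matrix (Fin n) (Fin n) B)).flip (Matrix.single k o 1)) with hX
  have hX' : ∀ c, X c = ∑ k, D (Matrix.single o k 1) (c * Matrix.single k o 1) := by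
    intro c
    simp only [hX, sum_apply]
    rfl
  set E : Matrix (Fin n) (Fin n) B → Matrix (Fin n) (Fin n) B → ℂ :=
    fun a c => D a c - (X (c * a) - X (a * c)) with hE
  have hEder : ∀ a b c, E (a * b) c = E b (c * a) + E a (b * c) := by
    intro a b c
    show D (a * b) c - (X (c * (a * b)) - X (a * b * c)) =
      (D b (c * a) - (X (c * a * b) - X (b * (c * a)))) +
      (D a (b * c) - (X (b * c * a) - X (a * (b * c))))
    rw [hder, ← mul_assoc c a b, ← mul_assoc b c a, ← mul_assoc a b c]
    ring
  have hE0 : ∀ i j c, E (Matrix.single i j 1) c = 0 := by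
    intro i j c
    show D (Matrix.single i j 1) c - (X (c * Matrix.single i j 1) -
      X (Matrix.single i j 1 * c)) = 0
    have t1 : X (c * Matrix.single i j 1) =
        D (Matrix.single o j 1) (c * Matrix.single i o 1) +
        0 := by
      rw [hX', Finset.sum_eq_single j, mul_assoc, Matrix.single_mul_single_same, mul_one,
        add_zero]
      · intro k _ hk
        rw [mul_assoc, Matrix.single_mul_single_of_ne _ _ _ _ hk.symm, mul_zero, hDL', map_zero]
      · intro h0; exact absurd (Finset.mem_univ j) h0
    have t2 : X (Matrix.single i j 1 * c) =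
        D (Matrix.single o j 1) (c * Matrix.single i o 1) - D (Matrix.single i j 1) c := by
      rw [hX']
      have s1 : ∀ k, D (Matrix.single o k 1) (Matrix.single i j 1 * c * Matrix.single k o 1) =
          D (Matrix.single o k 1 * Matrix.single i j 1) (c * Matrix.single k o 1) -
          D (Matrix.single i j 1) (c * Matrix.single k k 1) := by
        intro k
        rw [hder, mul_assoc c, Matrix.single_mul_single_same, mul_one, mul_assoc]
        ring
      rw [Finset.sum_congr rfl (fun k _ => s1 k), Finset.sum_sub_distrib]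
      congr 1
      · rw [Finset.sum_eq_single i, Matrix.single_mul_single_same, mul_one]
        · intro k _ hk
          rw [Matrix.single_mul_single_of_ne _ _ _ _ hk, hDL', map_zero]; rfl
        · intro h0; exact absurd (Finset.mem_univ i) h0
      · have s2 : ∀ k, D (Matrix.single i j 1) (c * Matrix.single k k 1) =
            DL (Matrix.single i j 1) (c * Matrix.single k k 1) := fun k => rfl
        rw [Finset.sum_congr rfl (fun k _ => s2 k), ← map_sum, ← Finset.mul_sum,
          Matrix.sum_single_one, mul_one]
        rfl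
    rw [t1, t2]
    ring
  -- the reduced form
  have hEadd : ∀ (c : Matrix (Fin n) (Fin n) B), ∃ l : Matrix (Fin n) (Fin n) B →L[ℂ] ℂ,
      ∀ a, E a c = l a := by
    intro c
    refine ⟨DL.flip c - (X ∘L (ContinuousLinearMap.mul ℂ (Matrix (Fin n) (Fin n) B) c) -
      X ∘L ((ContinuousLinearMap.mul ℂ (Matrix (Fin n) (Fin n) B)).flip c)), fun a => rfl⟩
  have hred : ∀ i j b c, E (Matrix.single i j b) c =
      E (Matrix.single o o b) (Matrix.single o o (c j i)) := by
    intro i j b c
    have r1 : (Matrix.single i j b : Matrix (Fin n) (Fin n) B) =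
        Matrix.single i o 1 * (Matrix.single o o b * Matrix.single o j 1) := by
      rw [Matrix.single_mul_single_same, Matrix.single_mul_single_same, mul_one, one_mul]
    have r2 : Matrix.single o j 1 * c * Matrix.single i o 1 = Matrix.single o o (c j i) := by
      rw [Matrix.single_mul_mul_single, one_mul, mul_one]
    have r3 : Matrix.single o j 1 * (c * Matrix.single i o 1) = Matrix.single o o (c j i) := by
      rw [← mul_assoc, r2]
    rw [r1, hEder, hE0, add_zero, hEder, hE0, zero_add, r3]
  -- the derivation on `B`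
  obtain ⟨g, hg, hg'⟩ := h (fun a c => E (Matrix.single o o a) (Matrix.single o o c))
    (by
      let R1 : Matrix (Fin n) (Fin n) B →L[ℂ] Matrix (Fin n) (Fin n) B →L[ℂ] ℂ :=
        (ContinuousLinearMap.compL ℂ (Matrix (Fin n) (Fin n) B)
          (Matrix (Fin n) (Fin n) B) ℂ X) ∘L
          (ContinuousLinearMap.mul ℂ (Matrix (Fin n) (Fin n) B)).flip
      let R2 : Matrix (Fin n) (Fin n) B →L[ℂ] Matrix (Fin n) (Fin n) B →L[ℂ] ℂ :=
        (ContinuousLinearMap.compL ℂ (Matrix (Fin n) (Fin n) B)
          (Matrix (Fin n) (Fin n) B) ℂ X) ∘L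
          (ContinuousLinearMap.mul ℂ (Matrix (Fin n) (Fin n) B))
      let EL : Matrix (Fin n) (Fin n) B →L[ℂ] Matrix (Fin n) (Fin n) B →L[ℂ] ℂ :=
        DL - (R1 - R2)
      exact (EL.bilinearComp (sg o o) (sg o o)).isBoundedBilinearMap)
    (by
      intro a b c
      show E (Matrix.single o o (a * b)) (Matrix.single o o c) =
        E (Matrix.single o o b) (Matrix.single o o (c * a)) +
        E (Matrix.single o o a) (Matrix.single o o (b * c))
      have q : ∀ x y : B, (Matrix.single o o (x * y) : Matrix (Fin n) (Fin n) B) =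
          Matrix.single o o x * Matrix.single o o y := by
        intro x y
        rw [Matrix.single_mul_single_same]
      rw [q a b, q c a, q b c, hEder])
  have hg'' : ∀ a c, E (Matrix.single o o a) (Matrix.single o o c) = g (c * a) - g (a * c) := hg'
  set gL : B →L[ℂ] ℂ := hg.toContinuousLinearMap with hgL
  have hgL' : ∀ b, g b = gL b := fun b => rfl
  set G : Matrix (Fin n) (Fin n) B →L[ℂ] ℂ := ∑ k, gL ∘L (en k k) with hG
  have hG' : ∀ m, G m = ∑ k, g (m k k) := by
    intro m
    simp only [hG, sum_apply]
    rfl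
  have hEG : ∀ a c, E a c = G (c * a) - G (a * c) := by
    intro a c
    obtain ⟨l, hl⟩ := hEadd c
    have u1 : E a c = ∑ i, ∑ j, E (Matrix.single i j (a i j)) c := by
      rw [hl]
      conv_lhs => rw [Matrix.matrix_eq_sum_single a]
      rw [map_sum]
      apply Finset.sum_congr rfl
      intro i _
      rw [map_sum]
      apply Finset.sum_congr rfl
      intro j _
      rw [hl]
    have u2 : ∀ i j, E (Matrix.single i j (a i j)) c = g (c j i * a i j) - g (a i j * c j i) := by
      intro i j
      rw [hred, hg'']
    have u3 : G (c * a) = ∑ i, ∑ j, g (c j i * a i j) := by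
      rw [hG', Finset.sum_comm]
      apply Finset.sum_congr rfl
      intro j _
      rw [Matrix.mul_apply, hgL', map_sum]
      rfl
    have u4 : G (a * c) = ∑ i, ∑ j, g (a i j * c j i) := by
      rw [hG']
      apply Finset.sum_congr rfl
      intro i _
      rw [Matrix.mul_apply, hgL', map_sum]
      rfl
    rw [u1, u3, u4]
    simp only [u2, Finset.sum_sub_distrib]
  refine ⟨fun m => X m + G m, (X + G).isBoundedLinearMap, ?_⟩
  intro a c
  have h1 : D a c - (X (c * a) - X (a * c)) = G (c * a) - G (a * c) := hEG a c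
  show D a c = (X (c * a) + G (c * a)) - (X (a * c) + G (a * c))
  linear_combination h1

end Mat

end

end Pool.Agent.Y249.DG
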