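import Pool.Agent.Y249.DG.Wa

/-!
# The largest commutative quotient
-/

namespace Pool.Agent.Y249.DG

open Pool.Agent.Results.MP_ae31bd_an.Disproof

universe u

noncomputable section

section Ideal

variable (A : Type u) [NonUnitalNormedRing A] [NormedSpace ℂ A]

/-- The commutator ideal: the smallest closed two-sided ideal containing all the commutators. -/
def comIdeal : Submodule ℂ A :=
  sInf {S : Submodule ℂ A | IsClosed (S : Set A) ∧ (∀ b c : A, b * c - c * b ∈ S) ∧
    ∀ s ∈ S, ∀ a : A, a * s ∈ S ∧ s * a ∈ S}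

variable {A}

lemma comIdeal_le {S : Submodule ℂ A} (h1 : IsClosed (S : Set A))
    (h2 : ∀ b c : A, b * c - c * b ∈ S) (h3 : ∀ s ∈ S, ∀ a : A, a * s ∈ S ∧ s * a ∈ S) :
    comIdeal A ≤ S := sInf_le ⟨h1, h2, h3⟩

lemma comIdeal_closed : IsClosed (comIdeal A : Set A) := by
  rw [comIdeal, Submodule.coe_sInf]
  exact isClosed_biInter fun S hS => hS.1

lemma comIdeal_comm (b c : A) : b * c - c * b ∈ comIdeal A := by
  rw [comIdeal, Submodule.mem_sInf]
  exact fun S hS => hS.2.1 b c

lemma comIdeal_left {s : A} (hs : s ∈ comIdeal A) (a : A) : a * s ∈ comIdeal A := by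
  rw [comIdeal, Submodule.mem_sInf] at hs ⊢
  exact fun S hS => (hS.2.2 s (hs S hS) a).1

lemma comIdeal_right {s : A} (hs : s ∈ comIdeal A) (a : A) : s * a ∈ comIdeal A := by
  rw [comIdeal, Submodule.mem_sInf] at hs ⊢
  exact fun S hS => (hS.2.2 s (hs S hS) a).2

/-- `q` is a bounded homomorphism of `A` onto a commutative algebra, whose kernel is the
commutator ideal. -/
def IsCommQuot {C : Type u} [NonUnitalNormedRing C] [NormedSpace ℂ C] (q : A →L[ℂ] C) : Prop :=
  (∀ x y : C, x * y = y * x) ∧ Function.Surjective q ∧ (∀ a b, q (a * b) = q a * q b) ∧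
    ∀ a, q a = 0 ↔ a ∈ comIdeal A

variable [IsScalarTower ℂ A A] [SMulCommClass ℂ A A]
variable {C : Type u} [NonUnitalNormedRing C] [NormedSpace ℂ C]

theorem wa_of_comAm {q : A →L[ℂ] C} (hq : IsCommQuot q) (h : ComAm A) : WeaklyAmenable C := by
  obtain ⟨hc, hs, hm, -⟩ := hq
  intro D hD hder
  set DL : C →L[ℂ] C →L[ℂ] ℂ := IsBoundedBilinearMap.toContinuousLinearMap hD with hDL
  have hz := h (fun a c => D (q a) (q c)) (DL.bilinearComp q q).isBoundedBilinearMap
    (by
      intro a b c
      show D (q (a * b)) (q c) = D (q b) (q (c * a)) + D (q a) (q (b * c))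
      rw [hm, hm, hm, hder])
    (by
      intro a b c
      show D (q a) (q (b * c)) = D (q a) (q (c * b))
      rw [hm, hm, hc])
    (by
      intro a b c d
      show D (q a) (q (b * c * d)) = D (q a) (q (c * b * d))
      rw [hm, hm, hm, hm, hc (q b)])
  refine ⟨fun _ => 0, (0 : C →L[ℂ] ℂ).isBoundedLinearMap, ?_⟩
  intro x y
  obtain ⟨a, rfl⟩ := hs x
  obtain ⟨c, rfl⟩ := hs y
  rw [sub_self]
  exact hz a c

variable [CompleteSpace A] [CompleteSpace C]

theorem comAm_of_wa {q : A →L[ℂ] C} (hq : IsCommQuot q) (h : WeaklyAmenable C) : ComAm A := by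
  obtain ⟨hc, hs, hm, hk⟩ := hq
  intro D hD h1 h2 h3
  set DL : A →L[ℂ] A →L[ℂ] ℂ := IsBoundedBilinearMap.toContinuousLinearMap hD with hDL
  have hDL' : ∀ a c, D a c = DL a c := fun a c => rfl
  -- vanishing on the ideal, second variable
  have hv : ∀ a, ∀ x ∈ comIdeal A, D a x = 0 := by
    intro a x hx
    let K : Submodule ℂ A :=
      { carrier := {x | D a x = 0 ∧ ∀ y, D a (x * y) = 0}
        add_mem' := by
          rintro x y ⟨hx, hx'⟩ ⟨hy, hy'⟩
          refine ⟨?_, fun z => ?_⟩
          · rw [hDL', map_add, ← hDL', ← hDL', hx, hy, add_zero]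
          · rw [add_mul, hDL', map_add, ← hDL', ← hDL', hx', hy', add_zero]
        zero_mem' := by
          refine ⟨?_, fun z => ?_⟩
          · rw [hDL', map_zero]
          · rw [zero_mul, hDL', map_zero]
        smul_mem' := by
          rintro r x ⟨hx, hx'⟩
          refine ⟨?_, fun z => ?_⟩
          · rw [hDL', map_smul, ← hDL', hx, smul_zero]
          · rw [smul_mul_assoc, hDL', map_smul, ← hDL', hx', smul_zero] }
    have hK : comIdeal A ≤ K := by
      apply comIdeal_le
      · have e : (K : Set A) = {x | DL a x = 0} ∩ ⋂ y, {x | DL a (x * y) = 0} := by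
          ext x
          simp only [Set.mem_inter_iff, Set.mem_iInter, Set.mem_setOf_eq]
          exact Iff.rfl
        rw [e]
        refine IsClosed.inter (isClosed_eq (DL a).continuous continuous_const)
          (isClosed_iInter fun y => isClosed_eq ?_ continuous_const)
        exact (DL a).continuous.comp (continuous_id.mul continuous_const)
      · intro b c
        refine ⟨?_, fun y => ?_⟩
        · rw [hDL', map_sub, ← hDL', ← hDL', h2, sub_self]
        · rw [sub_mul, hDL', map_sub, ← hDL', ← hDL', h3, sub_self]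
      · rintro s ⟨hs, hs'⟩ y
        refine ⟨⟨?_, fun z => ?_⟩, ⟨hs' y, fun z => ?_⟩⟩
        · rw [h2, hs']
        · rw [mul_assoc, h2, mul_assoc, hs']
        · rw [mul_assoc, hs']
    exact (hK hx).1
  -- first variable
  have hv2 : ∀ x ∈ comIdeal A, ∀ c, D x c = 0 := by
    let K : Submodule ℂ A :=
      { carrier := {x | x ∈ comIdeal A ∧ ∀ c, D x c = 0}
        add_mem' := by
          rintro x y ⟨hx, hx'⟩ ⟨hy, hy'⟩
          refine ⟨Submodule.add_mem _ hx hy, fun z => ?_⟩
          have e : D (x + y) z = D x z + D y z := by rw [hDL', map_add]; rfl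
          rw [e, hx', hy', add_zero]
        zero_mem' := by
          refine ⟨Submodule.zero_mem _, fun z => ?_⟩
          rw [hDL', map_zero]; rfl
        smul_mem' := by
          rintro r x ⟨hx, hx'⟩
          refine ⟨Submodule.smul_mem _ r hx, fun z => ?_⟩
          have e : D (r • x) z = r • D x z := by rw [hDL', map_smul]; rfl
          rw [e, hx', smul_zero] }
    have hK : comIdeal A ≤ K := by
      apply comIdeal_le
      · have e : (K : Set A) = (comIdeal A : Set A) ∩ ⋂ c, {x | DL.flip c x = 0} := by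
          ext x
          simp only [Set.mem_inter_iff, Set.mem_iInter, Set.mem_setOf_eq]
          exact Iff.rfl
        rw [e]
        exact IsClosed.inter comIdeal_closed
          (isClosed_iInter fun y => isClosed_eq (DL.flip y).continuous continuous_const)
      · intro b c
        refine ⟨comIdeal_comm b c, fun x => ?_⟩
        have e : D (b * c - c * b) x = D (b * c) x - D (c * b) x := by rw [hDL', map_sub]; rfl
        rw [e, h1, h1, h2 c x b, h2 b x c]
        ring
      · rintro s ⟨hs, hs'⟩ y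
        refine ⟨⟨comIdeal_left hs y, fun c => ?_⟩, ⟨comIdeal_right hs y, fun c => ?_⟩⟩
        · rw [h1, hs', zero_add]
          exact hv y _ (comIdeal_right hs c)
        · rw [h1, hs', add_zero]
          exact hv y _ (comIdeal_left hs c)
    intro x hx c
    exact (hK hx).2 c
  have hw : ∀ a a' c c', q a = q a' → q c = q c' → D a c = D a' c' := by
    intro a a' c c' ha hc'
    have e1 : a - a' ∈ comIdeal A := (hk _).1 (by rw [map_sub, ha, sub_self])
    have e2 : c - c' ∈ comIdeal A := (hk _).1 (by rw [map_sub, hc', sub_self])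
    have e3 := hv2 _ e1 c
    have e4 := hv a' _ e2
    have e5 : D (a - a') c = D a c - D a' c := by rw [hDL', map_sub]; rfl
    have e6 : D a' (c - c') = D a' c - D a' c' := by rw [hDL', map_sub]; rfl
    rw [e5] at e3
    rw [e6] at e4
    rw [sub_eq_zero.1 e3, sub_eq_zero.1 e4]
  obtain ⟨K, hK0, hK⟩ := q.exists_preimage_norm_le hs
  choose r hr using hs
  obtain ⟨f, -, hf⟩ := h (fun x y => D (r x) (r y))
    { add_left := by
        intro x y z
        have e : D (r x + r y) (r z) = D (r x) (r z) + D (r y) (r z) := by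
          rw [hDL', map_add]; rfl
        show D (r (x + y)) (r z) = D (r x) (r z) + D (r y) (r z)
        rw [← e]
        exact hw _ _ _ _ (by rw [map_add, hr, hr, hr]) rfl
      smul_left := by
        intro t x z
        have e : D (t • r x) (r z) = t • D (r x) (r z) := by
          rw [hDL', map_smul]; rfl
        show D (r (t • x)) (r z) = t • D (r x) (r z)
        rw [← e]
        exact hw _ _ _ _ (by rw [map_smul, hr, hr]) rfl
      add_right := by
        intro x y z
        have e : D (r x) (r y + r z) = D (r x) (r y) + D (r x) (r z) := by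
          rw [hDL', map_add]; rfl
        show D (r x) (r (y + z)) = D (r x) (r y) + D (r x) (r z)
        rw [← e]
        exact hw _ _ _ _ rfl (by rw [map_add, hr, hr, hr])
      smul_right := by
        intro t x z
        have e : D (r x) (t • r z) = t • D (r x) (r z) := by
          rw [hDL', map_smul]; rfl
        show D (r x) (r (t • z)) = t • D (r x) (r z)
        rw [← e]
        exact hw _ _ _ _ rfl (by rw [map_smul, hr, hr])
      bound := by
        refine ⟨(‖DL‖ + 1) * K * K, by positivity, fun x y => ?_⟩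
        obtain ⟨a, ha, ha'⟩ := hK x
        obtain ⟨c, hc1, hc'⟩ := hK y
        have e : D (r x) (r y) = D a c := hw _ _ _ _ (by rw [hr, ha]) (by rw [hr, hc1])
        show ‖D (r x) (r y)‖ ≤ _
        rw [e]
        calc ‖D a c‖ ≤ ‖DL‖ * ‖a‖ * ‖c‖ := DL.le_opNorm₂ a c
          _ ≤ (‖DL‖ + 1) * (K * ‖x‖) * (K * ‖y‖) := by gcongr; linarith
          _ = (‖DL‖ + 1) * K * K * ‖x‖ * ‖y‖ := by ring }
    (by
      intro x y z
      have e1 : D (r (x * y)) (r z) = D (r x * r y) (r z) :=
        hw _ _ _ _ (by rw [hm, hr, hr, hr]) rfl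
      have e2 : D (r y) (r (z * x)) = D (r y) (r z * r x) :=
        hw _ _ _ _ rfl (by rw [hm, hr, hr, hr])
      have e3 : D (r x) (r (y * z)) = D (r x) (r y * r z) :=
        hw _ _ _ _ rfl (by rw [hm, hr, hr, hr])
      show D (r (x * y)) (r z) = D (r y) (r (z * x)) + D (r x) (r (y * z))
      rw [e1, e2, e3, h1])
  intro a c
  have e := hf (q a) (q c)
  have e' : D (r (q a)) (r (q c)) = f (q c * q a) - f (q a * q c) := e
  rw [hc (q c) (q a), sub_self] at e'
  rw [← e']
  exact hw _ _ _ _ (hr _).symm (hr _).symm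

end Ideal

section Quotient

variable (A : Type u) [NonUnitalNormedRing A] [NormedSpace ℂ A]

/-- The quotient by the commutator ideal. -/
def CQ : Type u := A ⧸ comIdeal A

instance : NormedAddCommGroup (CQ A) :=
  haveI : IsClosed (comIdeal A : Set A) := comIdeal_closed
  Submodule.Quotient.normedAddCommGroup (comIdeal A)

instance : NormedSpace ℂ (CQ A) :=
  inferInstanceAs (NormedSpace ℂ (A ⧸ comIdeal A))

instance [CompleteSpace A] : CompleteSpace (CQ A) :=
  inferInstanceAs (CompleteSpace (A ⧸ comIdeal A))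

/-- The quotient map. -/
def qm : A →L[ℂ] CQ A := (comIdeal A).mkQL

variable {A}

lemma qm_surj : Function.Surjective (qm A) := Submodule.mkQ_surjective _

lemma qm_eq_zero (a : A) : qm A a = 0 ↔ a ∈ comIdeal A := Submodule.Quotient.mk_eq_zero _

lemma qm_le (a : A) : ‖qm A a‖ ≤ ‖a‖ := Submodule.Quotient.norm_mk_le _ a

lemma qm_lt (x : CQ A) {ε : ℝ} (hε : 0 < ε) : ∃ a, qm A a = x ∧ ‖a‖ < ‖x‖ + ε :=
  Submodule.Quotient.norm_mk_lt (S := comIdeal A) x hε

/-- A representative. -/
def rp (x : CQ A) : A := (qm_surj x).choose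

lemma qm_rp (x : CQ A) : qm A (rp x) = x := (qm_surj x).choose_spec

instance : Mul (CQ A) := ⟨fun x y => qm A (rp x * rp y)⟩

lemma qm_mul (a b : A) : qm A (a * b) = qm A a * qm A b := by
  show qm A (a * b) = qm A (rp (qm A a) * rp (qm A b))
  rw [← sub_eq_zero, ← map_sub, qm_eq_zero]
  have e1 : a - rp (qm A a) ∈ comIdeal A := by
    rw [← qm_eq_zero, map_sub, qm_rp, sub_self]
  have e2 : b - rp (qm A b) ∈ comIdeal A := by
    rw [← qm_eq_zero, map_sub, qm_rp, sub_self]
  have e3 : a * b - rp (qm A a) * rp (qm A b) =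
      (a - rp (qm A a)) * b + rp (qm A a) * (b - rp (qm A b)) := by
    rw [sub_mul, mul_sub]; abel
  rw [e3]
  exact Submodule.add_mem _ (comIdeal_right e1 _) (comIdeal_left e2 _)

lemma cq_norm_mul (x y : CQ A) : ‖x * y‖ ≤ ‖x‖ * ‖y‖ := by
  have key : ∀ ε : ℝ, 0 < ε → ‖x * y‖ ≤ (‖x‖ + ε) * (‖y‖ + ε) := by
    intro ε hε
    obtain ⟨a, rfl, ha⟩ := qm_lt x hε
    obtain ⟨b, rfl, hb⟩ := qm_lt y hε
    rw [← qm_mul]
    calc ‖qm A (a * b)‖ ≤ ‖a * b‖ := qm_le _
      _ ≤ ‖a‖ * ‖b‖ := norm_mul_le _ _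
      _ ≤ _ := by gcongr
  have ht : Filter.Tendsto (fun ε : ℝ => (‖x‖ + ε) * (‖y‖ + ε)) (nhdsWithin 0 (Set.Ioi 0))
      (nhds ((‖x‖ + 0) * (‖y‖ + 0))) :=
    (Continuous.tendsto (by fun_prop) 0).mono_left nhdsWithin_le_nhds
  rw [add_zero, add_zero] at ht
  exact ge_of_tendsto ht (eventually_mem_nhdsWithin.mono fun ε hε => key ε hε)

instance : NonUnitalNormedRing (CQ A) :=
  { (inferInstance : NormedAddCommGroup (CQ A)), (inferInstance : Mul (CQ A)) with
    left_distrib := by
      intro x y z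
      obtain ⟨a, rfl⟩ := qm_surj x
      obtain ⟨b, rfl⟩ := qm_surj y
      obtain ⟨c, rfl⟩ := qm_surj z
      rw [← map_add, ← qm_mul, ← qm_mul, ← qm_mul, mul_add, map_add]
    right_distrib := by
      intro x y z
      obtain ⟨a, rfl⟩ := qm_surj x
      obtain ⟨b, rfl⟩ := qm_surj y
      obtain ⟨c, rfl⟩ := qm_surj z
      rw [← map_add, ← qm_mul, ← qm_mul, ← qm_mul, add_mul, map_add]
    zero_mul := by
      intro x
      obtain ⟨a, rfl⟩ := qm_surj x
      rw [← map_zero (qm A), ← qm_mul, zero_mul]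
    mul_zero := by
      intro x
      obtain ⟨a, rfl⟩ := qm_surj x
      rw [← map_zero (qm A), ← qm_mul, mul_zero]
    mul_assoc := by
      intro x y z
      obtain ⟨a, rfl⟩ := qm_surj x
      obtain ⟨b, rfl⟩ := qm_surj y
      obtain ⟨c, rfl⟩ := qm_surj z
      rw [← qm_mul, ← qm_mul, ← qm_mul, ← qm_mul, mul_assoc]
    norm_mul_le := cq_norm_mul }

lemma cq_comm (x y : CQ A) : x * y = y * x := by
  obtain ⟨a, rfl⟩ := qm_surj x
  obtain ⟨b, rfl⟩ := qm_surj y
  rw [← qm_mul, ← qm_mul, ← sub_eq_zero, ← map_sub, qm_eq_zero]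
  exact comIdeal_comm a b

instance [IsScalarTower ℂ A A] : IsScalarTower ℂ (CQ A) (CQ A) :=
  ⟨by
    intro r x y
    obtain ⟨a, rfl⟩ := qm_surj x
    obtain ⟨b, rfl⟩ := qm_surj y
    show (r • qm A a) * qm A b = r • (qm A a * qm A b)
    rw [← map_smul, ← qm_mul, ← qm_mul, smul_mul_assoc, map_smul]⟩

instance [SMulCommClass ℂ A A] : SMulCommClass ℂ (CQ A) (CQ A) :=
  ⟨by
    intro r x y
    obtain ⟨a, rfl⟩ := qm_surj x
    obtain ⟨b, rfl⟩ := qm_surj y
    show r • (qm A a * qm A b) = qm A a * (r • qm A b)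
    rw [← map_smul, ← qm_mul, ← qm_mul, mul_smul_comm, map_smul]⟩

theorem qm_isCommQuot : IsCommQuot (qm A) :=
  ⟨cq_comm, qm_surj, qm_mul, qm_eq_zero⟩

end Quotient

end

end Pool.Agent.Y249.DG
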