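import Pool.Agent.Y249.DG.Env

/-!
# The diagonal ideal and derivations into symmetric bimodules
-/

namespace Pool.Agent.Y249.DG

open Pool.Agent.Results.MP_ae31bd_an.Disproof

universe u

noncomputable section

section Unit

variable (A : Type u) [NonUnitalNormedRing A] [NormedSpace ℂ A]
  [IsScalarTower ℂ A A] [SMulCommClass ℂ A A]

/-- The scalar part of an element of the unitization. -/
def fs : AP A →L[ℂ] ℂ :=
  LinearMap.mkContinuous
    { toFun := fun x => (WithLp.ofLp (p := 1) (V := Unitization ℂ A) x).fst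
      map_add' := fun _ _ => rfl
      map_smul' := fun _ _ => rfl } 1 (fun x => by
    rw [one_mul]
    have h := WithLp.unitization_norm_def (𝕜 := ℂ) (A := A) x
    exact (le_add_of_nonneg_right (norm_nonneg _)).trans h.ge)

/-- The algebra part of an element of the unitization. -/
def sn : AP A →L[ℂ] A :=
  LinearMap.mkContinuous
    { toFun := fun x => (WithLp.ofLp (p := 1) (V := Unitization ℂ A) x).snd
      map_add' := fun _ _ => rfl
      map_smul' := fun _ _ => rfl } 1 (fun x => by
    rw [one_mul]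
    have h := WithLp.unitization_norm_def (𝕜 := ℂ) (A := A) x
    exact (le_add_of_nonneg_left (norm_nonneg _)).trans h.ge)

/-- The inclusion as a function. -/
def jf (a : A) : AP A := (WithLp.toLp 1 (Unitization.inr a) : WithLp 1 (Unitization ℂ A))

variable {A}

lemma ap_ext {x y : AP A} (h1 : fs A x = fs A y) (h2 : sn A x = sn A y) : x = y :=
  WithLp.ofLp_injective 1 (Unitization.ext h1 h2)

lemma fs_jf (a : A) : fs A (jf A a) = 0 := rfl
lemma sn_jf (a : A) : sn A (jf A a) = a := rfl
lemma fs_mul (x y : AP A) : fs A (x * y) = fs A x * fs A y := rfl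
lemma sn_mul (x y : AP A) : sn A (x * y) = fs A x • sn A y + fs A y • sn A x + sn A x * sn A y :=
  rfl
lemma fs_one : fs A 1 = 1 := rfl
lemma sn_one : sn A 1 = 0 := rfl

variable (A) in
/-- The inclusion of the algebra in its unitization. -/
def jn : A →L[ℂ] AP A :=
  LinearMap.mkContinuous
    { toFun := jf A
      map_add' := fun a b => by
        apply ap_ext
        · rw [map_add, fs_jf, fs_jf, fs_jf, add_zero]
        · rw [map_add, sn_jf, sn_jf, sn_jf]
      map_smul' := fun r a => by
        apply ap_ext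
        · rw [map_smul, fs_jf, fs_jf, smul_zero]
        · rw [map_smul, sn_jf, sn_jf]; rfl } 1 (fun x => by
    rw [one_mul]
    have h := WithLp.unitization_norm_def (𝕜 := ℂ) (A := A) (jf A x)
    refine h.le.trans ?_
    have h1 : ‖fs A (jf A x)‖ = 0 := by rw [fs_jf, norm_zero]
    have h2 : ‖fs A (jf A x)‖ + ‖sn A (jf A x)‖ = ‖x‖ := by rw [h1, sn_jf, zero_add]
    exact h2.le)

lemma fs_jn (a : A) : fs A (jn A a) = 0 := rfl
lemma sn_jn (a : A) : sn A (jn A a) = a := rfl

lemma jn_mul (a b : A) : jn A (a * b) = jn A a * jn A b := by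
  apply ap_ext
  · rw [fs_mul, fs_jn, fs_jn, fs_jn, mul_zero]
  · rw [sn_mul, sn_jn, sn_jn, sn_jn, fs_jn, fs_jn, zero_smul, zero_smul, zero_add, zero_add]

lemma decomp (x : AP A) : x = fs A x • 1 + jn A (sn A x) := by
  apply ap_ext
  · rw [map_add, map_smul, fs_one, fs_jn, smul_eq_mul, mul_one, add_zero]
  · rw [map_add, map_smul, sn_one, sn_jn, smul_zero, zero_add]

end Unit

section Sym

variable {A : Type u} [NonUnitalNormedRing A] [NormedSpace ℂ A]
  [IsScalarTower ℂ A A] [SMulCommClass ℂ A A] [CompleteSpace A]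

/-- If the diagonal ideal is idempotent then every bounded derivation into a symmetric bimodule
is zero. -/
theorem sym_of_idem (M : EnvL A) (hM : M.DiagonalIdempotent)
    {X : Type u} [NormedAddCommGroup X] [NormedSpace ℂ X] [CompleteSpace X]
    (L : A →L[ℂ] X →L[ℂ] X) (D : A →L[ℂ] X)
    (h1 : ∀ a b x, L (a * b) x = L a (L b x)) (h2 : ∀ a b x, L a (L b x) = L b (L a x))
    (h3 : ∀ a b, D (a * b) = L a (D b) + L b (D a)) (a : A) : D a = 0 := by
  set Lp : AP A →L[ℂ] X →L[ℂ] X :=
    (fs A).smulRight (ContinuousLinearMap.id ℂ X) + L ∘L (sn A) with hLp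
  set Dp : AP A →L[ℂ] X := D ∘L (sn A) with hDp
  have Lp_apply : ∀ x v, Lp x v = fs A x • v + L (sn A x) v := fun x v => rfl
  have Dp_apply : ∀ x, Dp x = D (sn A x) := fun x => rfl
  have Lp_mul : ∀ x y v, Lp (x * y) v = Lp x (Lp y v) := by
    intro x y v
    rw [Lp_apply, Lp_apply, Lp_apply, fs_mul, sn_mul, map_add, map_add, map_smul, map_smul,
      map_add, map_smul]
    show (fs A x * fs A y) • v + ((fs A x • L (sn A y) v + fs A y • L (sn A x) v) +
      L (sn A x * sn A y) v) = _
    rw [h1, smul_add, smul_smul]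
    abel
  have Lp_comm : ∀ x y v, Lp x (Lp y v) = Lp y (Lp x v) := by
    intro x y v
    rw [Lp_apply, Lp_apply, Lp_apply, Lp_apply, map_add, map_smul, map_add, map_smul, h2,
      smul_add, smul_add, smul_smul, smul_smul, mul_comm]
    abel
  have Dp_mul : ∀ x y, Dp (x * y) = Lp x (Dp y) + Lp y (Dp x) := by
    intro x y
    rw [Dp_apply, Dp_apply, Dp_apply, Lp_apply, Lp_apply, sn_mul, map_add, map_add, map_smul,
      map_smul, h3]
    abel
  obtain ⟨F, hF, -⟩ := M.universal X
    (((ContinuousLinearMap.compL ℂ (AP A) X X).flip Dp) ∘L Lp)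
  have hF' : ∀ x y, F (M.tmul x y) = Lp x (Dp y) := fun x y => by rw [hF]; rfl
  have k1 : ∀ (c d : AP A) (x : M.E), F (M.mul x (M.tmul c d)) =
      Lp (c * d) (F x) + Lp (M.proj x) (F (M.tmul c d)) := by
    intro c d x
    have : F ∘L (M.mul.flip (M.tmul c d)) =
        (Lp (c * d)) ∘L F + (Lp.flip (F (M.tmul c d))) ∘L M.proj := by
      apply env_ext
      intro a b
      show F (M.mul (M.tmul a b) (M.tmul c d)) = Lp (c * d) (F (M.tmul a b)) +
        Lp (M.proj (M.tmul a b)) (F (M.tmul c d))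
      rw [M.mul_tmul, M.proj_tmul, hF', hF', hF', Dp_mul, map_add]
      simp only [Lp_mul]
      rw [Lp_comm a c (Lp d (Dp b)), Lp_comm a d (Dp b), Lp_comm c b (Dp d)]
    exact DFunLike.congr_fun this x
  have k2 : ∀ (x y : M.E), F (M.mul x y) = Lp (M.proj y) (F x) + Lp (M.proj x) (F y) := by
    intro x y
    have : F ∘L (M.mul x) = (Lp.flip (F x)) ∘L M.proj + (Lp (M.proj x)) ∘L F := by
      apply env_ext
      intro c d
      show F (M.mul x (M.tmul c d)) = Lp (M.proj (M.tmul c d)) (F x) +
        Lp (M.proj x) (F (M.tmul c d))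
      rw [k1, M.proj_tmul]
    exact DFunLike.congr_fun this y
  have hI : M.diagonalIdeal ≤ LinearMap.ker F.toLinearMap := by
    rw [← hM]
    apply Submodule.topologicalClosure_minimal
    · rw [Submodule.span_le]
      rintro w ⟨x, hx, y, hy, rfl⟩
      show F (M.mul x y) = 0
      rw [mem_diag] at hx hy
      rw [k2, hx, hy, map_zero]
      simp
    · exact ContinuousLinearMap.isClosed_ker F
  have hw : M.tmul 1 (jn A a) - M.tmul (jn A a) 1 ∈ M.diagonalIdeal := by
    rw [mem_diag, map_sub, M.proj_tmul, M.proj_tmul, one_mul, mul_one, sub_self]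
  have h4 : F (M.tmul 1 (jn A a) - M.tmul (jn A a) 1) = 0 := hI hw
  rw [map_sub, hF', hF', Dp_apply, Dp_apply, Lp_apply, sn_jn, sn_one, fs_one, map_zero,
    map_zero, map_zero, sub_zero, one_smul] at h4
  simpa using h4

/-- Every bounded derivation from `A` to its dual, whose values annihilate the closed two-sided
ideal generated by the commutators, vanishes. -/
def ComAm (A : Type u) [NonUnitalNormedRing A] [NormedSpace ℂ A] : Prop :=
  ∀ D : A → A → ℂ, IsBoundedBilinearMap ℂ (fun p : A × A => D p.1 p.2) →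
    (∀ a b c : A, D (a * b) c = D b (c * a) + D a (b * c)) →
    (∀ a b c : A, D a (b * c) = D a (c * b)) →
    (∀ a b c d : A, D a (b * c * d) = D a (c * b * d)) → ∀ a c : A, D a c = 0

omit [CompleteSpace A] in
/-- A bounded functional vanishing on products is zero. -/
lemma ComAm.functional (h : ComAm A) (l : A →L[ℂ] ℂ) (hl : ∀ a b, l (a * b) = 0) (a : A) :
    l a = 0 := by
  have h1 := h (fun a c => l a * l c) ?_ ?_ ?_ ?_ a a
  · simpa using h1
  · exact (ContinuousLinearMap.mul ℂ ℂ).bilinearComp l l |>.isBoundedBilinearMap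
  · intro a b c
    show l (a * b) * l c = l b * l (c * a) + l a * l (b * c)
    rw [hl, hl, hl]
    ring
  · intro a b c
    show l a * l (b * c) = l a * l (c * b)
    rw [hl, hl]
  · intro a b c d
    show l a * l (b * c * d) = l a * l (c * b * d)
    rw [hl, hl]

/-- The converse: the diagonal ideal is idempotent under the commutator condition. -/
theorem idem_of_comAm (M : EnvL A) (h : ComAm A) : M.DiagonalIdempotent := by
  have hsub : (Submodule.span ℂ {w : M.E | ∃ x ∈ M.diagonalIdeal, ∃ y ∈ M.diagonalIdeal,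
      w = M.mul x y}).topologicalClosure ≤ M.diagonalIdeal := by
    apply Submodule.topologicalClosure_minimal
    · rw [Submodule.span_le]
      rintro w ⟨x, -, y, hy, rfl⟩
      exact mul_mem_diag M x hy
    · exact ContinuousLinearMap.isClosed_ker M.proj
  apply le_antisymm hsub
  intro y hy
  by_contra hcon
  set S := (Submodule.span ℂ {w : M.E | ∃ x ∈ M.diagonalIdeal, ∃ y ∈ M.diagonalIdeal,
      w = M.mul x y}).topologicalClosure with hS
  have hSc : IsClosed (S : Set M.E) := Submodule.isClosed_topologicalClosure _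
  -- a functional
  obtain ⟨F, hF0, hFy⟩ : ∃ F : M.E →L[ℂ] ℂ, (∀ s ∈ S, F s = 0) ∧ F y ≠ 0 := by
    have : IsClosed (S : Set M.E) := hSc
    let _i : NormedAddCommGroup (M.E ⧸ S) := Submodule.Quotient.normedAddCommGroup S
    have hne : ‖(S.mkQ y)‖ ≠ 0 := by
      rw [norm_ne_zero_iff]
      intro h0
      exact hcon ((Submodule.Quotient.mk_eq_zero S).1 h0)
    obtain ⟨g, -, hg⟩ := exists_dual_vector ℂ (S.mkQ y) hne
    refine ⟨g ∘L (S.mkQL), ?_, ?_⟩
    · intro s hs
      have h0 : S.mkQ s = 0 := (Submodule.Quotient.mk_eq_zero S).2 hs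
      show g (S.mkQ s) = 0
      rw [h0, map_zero]
    · show g (S.mkQ y) ≠ 0
      rw [hg]
      intro h0
      apply hne
      first
        | exact Complex.ofReal_eq_zero.1 h0
        | exact RCLike.ofReal_eq_zero.1 h0
        | simpa using h0
  have hII : ∀ x ∈ M.diagonalIdeal, ∀ z ∈ M.diagonalIdeal, F (M.mul x z) = 0 := by
    intro x hx z hz
    exact hF0 _ (Submodule.le_topologicalClosure _ (Submodule.subset_span ⟨x, hx, z, hz, rfl⟩))
  have H1 : ∀ x : M.E, ∀ z ∈ M.diagonalIdeal,
      F (M.mul x z) = F (M.mul (M.tmul (M.proj x) 1) z) := by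
    intro x z hz
    have hx : x - M.tmul (M.proj x) 1 ∈ M.diagonalIdeal := by
      rw [mem_diag, map_sub, M.proj_tmul, mul_one, sub_self]
    have := hII _ hx z hz
    rw [map_sub] at this
    have h2 : F (M.mul x z - M.mul (M.tmul (M.proj x) 1) z) = 0 := this
    rw [map_sub, sub_eq_zero] at h2
    exact h2
  have H1' : ∀ b c : AP A, ∀ z ∈ M.diagonalIdeal,
      F (M.mul (M.tmul b c) z) = F (M.mul (M.tmul (b * c) 1) z) := by
    intro b c z hz
    rw [H1 _ z hz, M.proj_tmul]
  have H2 : ∀ b c : AP A, ∀ z ∈ M.diagonalIdeal,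
      F (M.mul (M.tmul (b * c) 1) z) = F (M.mul (M.tmul (c * b) 1) z) := by
    intro b c z hz
    have hz' := mul_mem_diag M (M.tmul b 1) hz
    have e1 : F (M.mul (M.tmul c 1) (M.mul (M.tmul b 1) z)) =
        F (M.mul (M.tmul 1 c) (M.mul (M.tmul b 1) z)) := by
      rw [H1' 1 c _ hz', one_mul]
    rw [mul_assoc_tmul, mul_assoc_tmul, one_mul, one_mul, one_mul] at e1
    rw [e1, H1' b c z hz]
  -- the trilinear form
  set w : AP A → M.E := fun a => M.tmul a 1 - M.tmul 1 a with hw
  have w_mem : ∀ a, w a ∈ M.diagonalIdeal := by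
    intro a
    rw [mem_diag, hw]
    show M.proj (M.tmul a 1 - M.tmul 1 a) = 0
    rw [map_sub, M.proj_tmul, M.proj_tmul, one_mul, mul_one, sub_self]
  have w_mul : ∀ a b, w (a * b) = M.mul (M.tmul a 1) (w b) + M.mul (M.tmul 1 b) (w a) := by
    intro a b
    show M.tmul (a * b) 1 - M.tmul 1 (a * b) = M.mul (M.tmul a 1) (M.tmul b 1 - M.tmul 1 b) +
      M.mul (M.tmul 1 b) (M.tmul a 1 - M.tmul 1 a)
    rw [map_sub, map_sub, M.mul_tmul, M.mul_tmul, M.mul_tmul, M.mul_tmul]
    simp only [mul_one, one_mul]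
    abel
  set P : AP A → AP A → ℂ := fun a c => F (M.mul (M.tmul c 1) (w a)) with hP
  have P_mul : ∀ a b c, P (a * b) c = P b (c * a) + P a (c * b) := by
    intro a b c
    show F (M.mul (M.tmul c 1) (w (a * b))) = F (M.mul (M.tmul (c * a) 1) (w b)) +
      F (M.mul (M.tmul (c * b) 1) (w a))
    rw [w_mul, map_add, map_add, mul_assoc_tmul, mul_assoc_tmul]
    simp only [mul_one]
    rw [H1' c b _ (w_mem a)]
  have P_comm : ∀ a b c, P a (b * c) = P a (c * b) := fun a b c => H2 b c _ (w_mem a)
  have P_comm3 : ∀ a b c d, P a (b * c * d) = P a (c * b * d) := by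
    intro a b c d
    have h1 := H2 b c _ (mul_mem_diag M (M.tmul d 1) (w_mem a))
    rw [mul_assoc_tmul, mul_assoc_tmul, mul_one] at h1
    exact h1
  have P_add_left : ∀ a b c, P (a + b) c = P a c + P b c := by
    intro a b c
    have : w (a + b) = w a + w b := by
      show M.tmul (a + b) 1 - M.tmul 1 (a + b) = (M.tmul a 1 - M.tmul 1 a) +
        (M.tmul b 1 - M.tmul 1 b)
      rw [map_add, map_add]
      show (M.tmul a 1 + M.tmul b 1) - (M.tmul 1 a + M.tmul 1 b) = _
      abel
    show F (M.mul (M.tmul c 1) (w (a + b))) = _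
    rw [this, map_add, map_add]
  have P_smul_left : ∀ (r : ℂ) a c, P (r • a) c = r * P a c := by
    intro r a c
    have : w (r • a) = r • w a := by
      show M.tmul (r • a) 1 - M.tmul 1 (r • a) = r • (M.tmul a 1 - M.tmul 1 a)
      rw [map_smul, map_smul, smul_sub]
      rfl
    show F (M.mul (M.tmul c 1) (w (r • a))) = _
    rw [this, map_smul, map_smul]
    rfl
  have P_add_right : ∀ a b c, P a (b + c) = P a b + P a c := by
    intro a b c
    show F (M.mul (M.tmul (b + c) 1) (w a)) = _
    rw [map_add]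
    show F (M.mul (M.tmul b 1 + M.tmul c 1) (w a)) = _
    rw [map_add]
    show F (M.mul (M.tmul b 1) (w a) + M.mul (M.tmul c 1) (w a)) = _
    rw [map_add]
  have P_smul_right : ∀ (r : ℂ) a c, P a (r • c) = r * P a c := by
    intro r a c
    show F (M.mul (M.tmul (r • c) 1) (w a)) = _
    rw [map_smul]
    show F (M.mul (r • M.tmul c 1) (w a)) = _
    rw [map_smul]
    show F (r • M.mul (M.tmul c 1) (w a)) = _
    rw [map_smul]
    rfl
  have P_one_left : ∀ c, P 1 c = 0 := by
    intro c
    show F (M.mul (M.tmul c 1) (M.tmul 1 1 - M.tmul 1 1)) = 0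
    rw [sub_self, map_zero, map_zero]
  -- boundedness
  have wL : ∃ W : AP A →L[ℂ] M.E, ∀ a, W a = w a := ⟨M.tmul.flip 1 - M.tmul 1, fun a => rfl⟩
  obtain ⟨W, hW⟩ := wL
  have PA : ∀ a c : A, P (jn A a) (jn A c) = 0 := by
    apply h (fun a c => P (jn A a) (jn A c))
    · have : IsBoundedBilinearMap ℂ (fun p : A × A =>
          ((ContinuousLinearMap.compL ℂ M.E M.E ℂ F) ∘L (M.mul ∘L (M.tmul.flip 1)) |>.flip
            |>.bilinearComp (W ∘L (jn A)) (jn A)) p.1 p.2) :=
        ContinuousLinearMap.isBoundedBilinearMap _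
      convert this using 2 with p
      show F (M.mul (M.tmul (jn A p.2) 1) (w (jn A p.1))) =
        F (M.mul (M.tmul (jn A p.2) 1) (W (jn A p.1)))
      rw [hW]
    · intro a b c
      show P (jn A (a * b)) (jn A c) = P (jn A b) (jn A (c * a)) + P (jn A a) (jn A (b * c))
      rw [jn_mul, jn_mul, jn_mul, P_mul, P_comm (jn A a)]
    · intro a b c
      show P (jn A a) (jn A (b * c)) = P (jn A a) (jn A (c * b))
      rw [jn_mul, jn_mul, P_comm]
    · intro a b c d
      show P (jn A a) (jn A (b * c * d)) = P (jn A a) (jn A (c * b * d))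
      rw [jn_mul, jn_mul, jn_mul, jn_mul, P_comm3]
  have PO : ∀ a : A, P (jn A a) 1 = 0 := by
    have h2 := h.functional (((F ∘L (M.mul (M.tmul 1 1))) ∘L W) ∘L (jn A)) (by
      intro a b
      show F (M.mul (M.tmul 1 1) (W (jn A (a * b)))) = 0
      rw [hW]
      show P (jn A (a * b)) 1 = 0
      rw [jn_mul, P_mul, one_mul, one_mul, PA, PA, add_zero])
    intro a
    have h3 := h2 a
    have h4 : F (M.mul (M.tmul 1 1) (W (jn A a))) = 0 := h3
    rw [hW] at h4
    exact h4
  have P0 : ∀ a c, P a c = 0 := by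
    intro a c
    rw [decomp a, decomp c, P_add_left, P_smul_left, P_one_left, P_add_right, P_smul_right,
      PO, PA]
    simp
  have hFT : ∀ a b, F (M.tmul a b) = F (M.tmul (a * b) 1) := by
    intro a b
    have h1 : F (M.mul (M.tmul a 1) (M.tmul b 1 - M.tmul 1 b)) = 0 := P0 b a
    rw [map_sub, M.mul_tmul, M.mul_tmul, map_sub, mul_one, mul_one, mul_one, sub_eq_zero] at h1
    exact h1.symm
  have hfin : F.smulRight y = ((F ∘L (M.tmul.flip 1)) ∘L M.proj).smulRight y := by
    apply env_ext
    intro a b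
    show F (M.tmul a b) • y = F (M.tmul (M.proj (M.tmul a b)) 1) • y
    rw [M.proj_tmul, hFT]
  have h5 : F y • y = F (M.tmul (M.proj y) 1) • y := DFunLike.congr_fun hfin y
  rw [mem_diag] at hy
  rw [hy, map_zero] at h5
  have h6 : F y • y = 0 := by
    rw [h5]
    show F 0 • y = 0
    rw [map_zero, zero_smul]
  rcases smul_eq_zero.1 h6 with h7 | h7
  · exact hFy h7
  · exact hFy (by rw [h7, map_zero])

end Sym

end

end Pool.Agent.Y249.DG
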