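import Pool.Agent.Y249.DG.Sym

/-!
# Weak amenability and the commutator condition
-/

namespace Pool.Agent.Y249.DG

open Pool.Agent.Results.MP_ae31bd_an.Disproof

universe u

noncomputable section

section Wa

variable {A : Type u} [NonUnitalNormedRing A] [NormedSpace ℂ A]

lemma WeaklyAmenable.functional (h : WeaklyAmenable A) (l : A →L[ℂ] ℂ)
    (hl : ∀ a b, l (a * b) = 0) (a : A) : l a = 0 := by
  obtain ⟨f, -, hf⟩ := h (fun a c => l a * l c)
    ((ContinuousLinearMap.mul ℂ ℂ).bilinearComp l l |>.isBoundedBilinearMap) (by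
      intro a b c
      show l (a * b) * l c = l b * l (c * a) + l a * l (b * c)
      rw [hl, hl, hl]
      ring)
  have h1 : l a * l a = f (a * a) - f (a * a) := hf a a
  rw [sub_self] at h1
  exact mul_self_eq_zero.1 h1

variable [IsScalarTower ℂ A A] [SMulCommClass ℂ A A]

/-- Weakly amenable algebras satisfy the commutator condition. -/
theorem comAm_of_weaklyAmenable (h : WeaklyAmenable A) : ComAm A := by
  intro D hD h1 h2 h3
  set DL : A →L[ℂ] A →L[ℂ] ℂ := IsBoundedBilinearMap.toContinuousLinearMap hD with hDL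
  have hDL' : ∀ a c, D a c = DL a c := fun a c => rfl
  have add_left : ∀ a b c, D (a + b) c = D a c + D b c := by
    intro a b c
    rw [hDL', map_add]; rfl
  have add_right : ∀ a b c, D a (b + c) = D a b + D a c := by
    intro a b c
    rw [hDL', map_add]; rfl
  have hq : ∀ a e : A, D a (a * e) = 0 := by
    intro a e
    obtain ⟨f, -, hf⟩ := h (fun a c => D a (c * e))
      ((DL.bilinearComp (ContinuousLinearMap.id ℂ A)
        ((ContinuousLinearMap.mul ℂ A).flip e)).isBoundedBilinearMap) (by
        intro a b c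
        show D (a * b) (c * e) = D b (c * a * e) + D a (b * c * e)
        rw [h1, ← mul_assoc]
        congr 1
        rw [h3 b c e a, mul_assoc e c a, h2 b e (c * a)])
    have h4 : D a (a * e) = f (a * a) - f (a * a) := hf a a
    rw [h4, sub_self]
  have hs : ∀ a b e : A, D a (b * e) = - D b (a * e) := by
    intro a b e
    have h5 := hq (a + b) e
    rw [add_mul, add_left, add_right, add_right, hq, hq, zero_add, add_zero] at h5
    exact eq_neg_of_add_eq_zero_left h5
  have hz : ∀ a b e : A, D a (b * e) = 0 := by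
    intro a b e
    have h6 : D a (b * e) = - D a (b * e) := by
      calc D a (b * e) = - D b (a * e) := hs a b e
        _ = - D b (e * a) := by rw [h2 b a e]
        _ = D e (b * a) := by rw [hs b e a, neg_neg]
        _ = D e (a * b) := h2 e b a
        _ = - D a (e * b) := hs e a b
        _ = - D a (b * e) := by rw [h2 a e b]
    exact self_eq_neg.1 h6
  intro a c
  exact WeaklyAmenable.functional h (DL a) (fun b e => hz a b e) c

/-- Every bounded derivation into a symmetric Banach bimodule vanishes. -/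
def SymDer (A : Type u) [NonUnitalNormedRing A] [NormedSpace ℂ A] : Prop :=
  ∀ (X : Type u) [NormedAddCommGroup X] [NormedSpace ℂ X] [CompleteSpace X]
    (L : A → X → X) (D : A → X), IsBoundedBilinearMap ℂ (fun p : A × X => L p.1 p.2) →
    IsBoundedLinearMap ℂ D → (∀ a b x, L (a * b) x = L a (L b x)) →
    (∀ a b x, L a (L b x) = L b (L a x)) →
    (∀ a b, D (a * b) = L a (D b) + L b (D a)) → ∀ a, D a = 0

variable (A) in
/-- The functionals annihilating the commutator ideal. -/
def SS : Submodule ℂ (A →L[ℂ] ℂ) where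
  carrier := {g | (∀ b c, g (b * c) = g (c * b)) ∧ ∀ b c d, g (b * c * d) = g (c * b * d)}
  add_mem' := by
    rintro f g ⟨hf, hf'⟩ ⟨hg, hg'⟩
    refine ⟨fun b c => ?_, fun b c d => ?_⟩
    · show f _ + g _ = f _ + g _
      rw [hf, hg]
    · show f _ + g _ = f _ + g _
      rw [hf', hg']
  zero_mem' := ⟨fun _ _ => rfl, fun _ _ _ => rfl⟩
  smul_mem' := by
    rintro r g ⟨hg, hg'⟩
    refine ⟨fun b c => ?_, fun b c d => ?_⟩
    · show r • g _ = r • g _
      rw [hg]
    · show r • g _ = r • g _
      rw [hg']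

lemma SS_closed : IsClosed (SS A : Set (A →L[ℂ] ℂ)) := by
  have : (SS A : Set (A →L[ℂ] ℂ)) = (⋂ b, ⋂ c, {g : A →L[ℂ] ℂ | g (b * c) = g (c * b)}) ∩
      ⋂ b, ⋂ c, ⋂ d, {g : A →L[ℂ] ℂ | g (b * c * d) = g (c * b * d)} := by
    ext g
    simp [SS]
  rw [this]
  apply IsClosed.inter
  · refine isClosed_iInter fun b => isClosed_iInter fun c => isClosed_eq ?_ ?_
    all_goals exact (ContinuousLinearMap.apply ℂ ℂ _).continuous
  · refine isClosed_iInter fun b => isClosed_iInter fun c => isClosed_iInter fun d =>
      isClosed_eq ?_ ?_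
    all_goals exact (ContinuousLinearMap.apply ℂ ℂ _).continuous

instance : CompleteSpace (SS A) := SS_closed.completeSpace_coe

variable (A) in
/-- The module action. -/
def LS (a : A) (g : SS A) : SS A :=
  ⟨g.1 ∘L ((ContinuousLinearMap.mul ℂ A).flip a), by
    obtain ⟨g, hg, hg'⟩ := g
    refine ⟨fun b c => ?_, fun b c d => ?_⟩
    · exact hg' b c a
    · show g (b * c * d * a) = g (c * b * d * a)
      rw [mul_assoc _ d, hg', mul_assoc _ d]⟩

lemma LS_apply (a : A) (g : SS A) (x : A) : (LS A a g).1 x = g.1 (x * a) := rfl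

lemma LS_bdd : IsBoundedBilinearMap ℂ (fun p : A × SS A => LS A p.1 p.2) where
  add_left := by
    intro a b g
    apply Subtype.ext
    ext x
    show g.1 (x * (a + b)) = g.1 (x * a) + g.1 (x * b)
    rw [mul_add, map_add]
  smul_left := by
    intro r a g
    apply Subtype.ext
    ext x
    show g.1 (x * (r • a)) = r • g.1 (x * a)
    rw [mul_smul_comm, map_smul]
  add_right := by
    intro a g h
    rfl
  smul_right := by
    intro r a g
    rfl
  bound := by
    refine ⟨1, one_pos, fun a g => ?_⟩
    show ‖(LS A a g).1‖ ≤ 1 * ‖a‖ * ‖g.1‖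
    apply ContinuousLinearMap.opNorm_le_bound _ (by positivity)
    intro x
    rw [LS_apply]
    calc ‖g.1 (x * a)‖ ≤ ‖g.1‖ * ‖x * a‖ := g.1.le_opNorm _
      _ ≤ ‖g.1‖ * (‖x‖ * ‖a‖) := by gcongr; exact norm_mul_le _ _
      _ = 1 * ‖a‖ * ‖g.1‖ * ‖x‖ := by ring

theorem comAm_of_symDer (h : SymDer A) : ComAm A := by
  intro D hD h1 h2 h3 a c
  set DL : A →L[ℂ] A →L[ℂ] ℂ := IsBoundedBilinearMap.toContinuousLinearMap hD with hDL
  have hDL' : ∀ a c, D a c = DL a c := fun a c => rfl
  have hmem : ∀ a, DL a ∈ SS A := fun a => ⟨fun b c => h2 a b c, fun b c d => h3 a b c d⟩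
  have hbd : IsBoundedLinearMap ℂ (fun a => (⟨DL a, hmem a⟩ : SS A)) := by
    refine IsLinearMap.with_bound ⟨?_, ?_⟩ ‖DL‖ ?_
    · intro a b
      apply Subtype.ext
      exact map_add DL a b
    · intro r a
      apply Subtype.ext
      exact map_smul DL r a
    · intro a
      exact DL.le_opNorm a
  have key := h (SS A) (LS A) (fun a => ⟨DL a, hmem a⟩) LS_bdd hbd
    (by
      intro a b g
      apply Subtype.ext
      ext x
      rw [LS_apply, LS_apply, LS_apply, mul_assoc])
    (by
      intro a b g
      apply Subtype.ext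
      ext x
      rw [LS_apply, LS_apply, LS_apply, LS_apply]
      have e1 := g.2.1 (x * a) b
      have e2 := g.2.2 b x a
      have e3 : g.1 (b * (x * a)) = g.1 (b * x * a) := by rw [mul_assoc]
      have e4 : g.1 (x * a * b) = g.1 (x * b * a) := by rw [e1, e3, e2]
      exact e4)
    (by
      intro a b
      apply Subtype.ext
      ext x
      show D (a * b) x = D b (x * a) + D a (x * b)
      rw [h1, h2 a b x]) a
  have k2 := congrArg (fun g : SS A => g.1 c) key
  exact k2

end Wa

section Summary

variable {A : Type u} [NonUnitalNormedRing A] [NormedSpace ℂ A]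
  [IsScalarTower ℂ A A] [SMulCommClass ℂ A A] [CompleteSpace A]

lemma toL_idempotent (M : Env A) (h : M.DiagonalIdempotent) : M.toL.DiagonalIdempotent :=
  SetLike.coe_injective h

theorem symDer_of_idempotent (M : Env A) (hM : M.DiagonalIdempotent) : SymDer A := by
  intro X _ _ _ L D hL hD h1 h2 h3 a
  exact sym_of_idem M.toL (toL_idempotent M hM)
    (IsBoundedBilinearMap.toContinuousLinearMap hL) hD.toContinuousLinearMap
    h1 h2 h3 a

theorem idempotent_of_comAm (M : Env A) (h : ComAm A) : M.DiagonalIdempotent :=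
  M.idempotent_of_toL (idem_of_comAm M.toL h)

theorem idempotent_iff_comAm (M : Env A) : M.DiagonalIdempotent ↔ ComAm A :=
  ⟨fun h => comAm_of_symDer (symDer_of_idempotent M h), idempotent_of_comAm M⟩

theorem idempotent_iff_symDer (M : Env A) : M.DiagonalIdempotent ↔ SymDer A :=
  ⟨symDer_of_idempotent M, fun h => idempotent_of_comAm M (comAm_of_symDer h)⟩

theorem idempotent_of_weaklyAmenable (M : Env A) (h : WeaklyAmenable A) :
    M.DiagonalIdempotent := idempotent_of_comAm M (comAm_of_weaklyAmenable h)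

end Summary

end

end Pool.Agent.Y249.DG
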